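import Pool.Agent.Lib_helper46.Schild.Poly

set_option autoImplicit false

namespace Pool.Agent.Lib_helper46.Schild

def chk (S b0 b1 : ℤ) : List ℤ → Bool
  | [] => true
  | [_] => true
  | n0 :: n1 :: l =>
    qnn (gbox (S ^ 2 * 10 ^ 6) ((10 ^ 6 + S ^ 2) ^ 2) 40000 1000 n0 n1 b0 b1) &&
      chk S b0 b1 (n1 :: l)

def lastD (a : ℤ) : List ℤ → ℤ
  | [] => a
  | b :: l => lastD b l

theorem chk_cons (S b0 b1 n0 n1 : ℤ) (l : List ℤ) (h : chk S b0 b1 (n0 :: n1 :: l) = true) :
    qnn (gbox (S ^ 2 * 10 ^ 6) ((10 ^ 6 + S ^ 2) ^ 2) 40000 1000 n0 n1 b0 b1) = true ∧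
      chk S b0 b1 (n1 :: l) = true := by
  rw [chk] at h
  exact (Bool.and_eq_true _ _).mp h

theorem chk_nonneg {S b0 b1 : ℤ} {N β X s : ℝ} (hs : s = (S:ℝ) / 1000)
    (hX : (1 + s ^ 2) ^ 2 * X = (N + 1) ^ 2 * s ^ 2)
    (hβ0 : (b0:ℝ) ≤ 1000 * β) (hβ1 : 1000 * β < b1)
    (l : List ℤ) : ∀ (n0 : ℤ), chk S b0 b1 (n0 :: l) = true → (n0:ℝ) ≤ 40000 * N →
      40000 * N < lastD n0 l → 0 ≤ Gf N β X := by
  induction l with
  | nil =>
    intro n0 _ h0 h1
    have h2 : lastD n0 [] = n0 := rfl
    rw [h2] at h1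
    exact absurd h0 (not_le.2 h1)
  | cons n1 l ih =>
    intro n0 h h0 h1
    obtain ⟨ha, hb⟩ := chk_cons S b0 b1 n0 n1 l h
    clear h
    rcases lt_or_ge (40000 * N) (n1:ℝ) with h2 | h2
    · have hd : (0:ℤ) < 40000 := by norm_num
      have he : (0:ℤ) < 1000 := by norm_num
      have c1 : (((40000:ℤ)):ℝ) = 40000 := by norm_num
      have c2 : (((1000:ℤ)):ℝ) = 1000 := by norm_num
      exact box_nonneg hd he ha hs hX (by rw [c1]; exact h0) (by rw [c1]; exact h2)
        (by rw [c2]; exact hβ0) (by rw [c2]; exact hβ1)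
    · exact ih n1 hb h2 h1

set_option maxRecDepth 100000

theorem chk1 : chk 237 0 229 [2244, 40000, 81875, 98125, 117500, 168750, 712500] = true := by
  decide +kernel
theorem chk2 : chk 267 229 338 [2848, 40000, 55625, 65625, 77500, 150000, 561250] = true := by
  decide +kernel
theorem chk3 : chk 287 338 422 [3292, 40000, 46875, 54375, 74375, 139375, 485625] = true := by
  decide +kernel
theorem chk4 : chk 304 422 497 [3696, 11875, 21875, 29375, 34375, 40000, 433125] = true := by
  decide +kernel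
theorem chk5 : chk 323 497 580 [4172, 13125, 23125, 30625, 40000, 383750] = true := by
  decide +kernel
theorem chk6 : chk 347 580 675 [4816, 13750, 18125, 23750, 40000, 332500] = true := by
  decide +kernel
theorem chk7 : chk 383 675 782 [5864, 9375, 15625, 40000, 273125] = true := by
  decide +kernel
theorem chk8 : chk 434 782 866 [7532, 11250, 17500, 40000, 212500] = true := by
  decide +kernel
theorem chk9 : chk 486 866 908 [9444, 169375] = true := by
  decide +kernel
theorem chk10 : chk 516 908 933 [10648, 150625] = true := by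
  decide +kernel
theorem chk11 : chk 535 933 951 [11448, 140000] = true := by
  decide +kernel
theorem chk12 : chk 549 951 965 [12056, 133125] = true := by
  decide +kernel
theorem chk13 : chk 560 965 978 [12544, 128125] = true := by
  decide +kernel
theorem chk14 : chk 570 978 990 [12996, 123125] = true := by
  decide +kernel
theorem chk15 : chk 580 990 1001 [13456, 119375] = true := by
  decide +kernel

end Pool.Agent.Lib_helper46.Schild
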