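import Pool.Agent.Lib_helper46.Schild.Curve

set_option autoImplicit false

open Complex Metric Set

namespace Pool.Agent.Lib_helper46.Schild

variable {h : ℂ → ℂ}

/-- Real symmetry. -/
def RealSym (h : ℂ → ℂ) : Prop :=
  ∀ z ∈ ball (0:ℂ) 1, h ((starRingEnd ℂ) z) = (starRingEnd ℂ) (h z)

lemma conj_mem {z : ℂ} {r : ℝ} (hz : z ∈ ball (0:ℂ) r) : (starRingEnd ℂ) z ∈ ball (0:ℂ) r := by
  rw [mem_ball_zero_iff] at hz ⊢
  rwa [norm_conj]

lemma RealSym.fh (hs : RealSym h) {z : ℂ} (hz : z ∈ ball (0:ℂ) 1) :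
    fh h ((starRingEnd ℂ) z) = (starRingEnd ℂ) (fh h z) := by
  simp only [Schild.fh, hs z hz, map_mul, ← exp_conj]

lemma RealSym.ofReal (hs : RealSym h) {x : ℝ} (hx : (x:ℂ) ∈ ball (0:ℂ) 1) :
    (h x).im = 0 := by
  have := hs x hx
  rw [conj_ofReal] at this
  exact conj_eq_iff_im.1 this.symm

/-- `f` is increasing on the real diameter. -/
lemma Good.real_mono (H : Good h) (hs : RealSym h) {x y : ℝ} (hx : -1 < x) (hxy : x ≤ y)
    (hy : y < 1) : (fh h x).re ≤ (fh h y).re := by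
  have hder : ∀ t : ℝ, -1 < t → t < 1 → HasDerivAt (fun t : ℝ => (fh h t).re)
      (Real.exp (h t).re * (ph h t).re) t := by
    intro t h1 h2
    have ht : (t:ℂ) ∈ ball (0:ℂ) 1 := by
      rw [mem_ball_zero_iff, norm_real, Real.norm_eq_abs, abs_lt]
      exact ⟨h1, h2⟩
    have h3 := (H.hasDerivAt_fh ht).real_of_complex
    refine h3.congr_deriv ?_
    have h4 : exp (h t) = (Real.exp (h t).re : ℂ) := by
      rw [ofReal_exp]
      congr 1
      apply Complex.ext
      · simp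
      · simp [hs.ofReal ht]
    rw [h4, re_ofReal_mul]
  have hmon : MonotoneOn (fun t : ℝ => (fh h t).re) (Icc x y) := by
    apply monotoneOn_of_deriv_nonneg (convex_Icc _ _)
    · intro t ht
      exact (hder t (hx.trans_le ht.1) (ht.2.trans_lt hy)).continuousAt.continuousWithinAt
    · intro t ht
      rw [interior_Icc] at ht
      exact (hder t (hx.trans ht.1) (ht.2.trans hy)).differentiableAt.differentiableWithinAt
    · intro t ht
      rw [interior_Icc] at ht
      rw [(hder t (hx.trans ht.1) (ht.2.trans hy)).deriv]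
      apply mul_nonneg (Real.exp_pos _).le
      apply (H.pos _ _).le
      rw [mem_ball_zero_iff, norm_real, Real.norm_eq_abs, abs_lt]
      exact ⟨hx.trans ht.1, ht.2.trans hy⟩
  exact hmon (left_mem_Icc.2 hxy) (right_mem_Icc.2 hxy) hxy

/-- The inverse of `f`. -/
noncomputable def invf (h : ℂ → ℂ) (w : ℂ) : ℂ := Function.invFunOn (fh h) (ball 0 1) w

lemma invf_mem {w : ℂ} (hw : w ∈ fh h '' ball 0 1) : invf h w ∈ ball (0:ℂ) 1 :=
  Function.invFunOn_mem hw

lemma fh_invf {w : ℂ} (hw : w ∈ fh h '' ball 0 1) : fh h (invf h w) = w :=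
  Function.invFunOn_eq hw

lemma Good.invf_fh (H : Good h) {z : ℂ} (hz : z ∈ ball (0:ℂ) 1) : invf h (fh h z) = z :=
  H.injOn (invf_mem ⟨z, hz, rfl⟩) hz (fh_invf ⟨z, hz, rfl⟩)

lemma Good.continuousAt_invf (H : Good h) {w : ℂ} (hw : w ∈ fh h '' ball 0 1) :
    ContinuousAt (invf h) w := by
  obtain ⟨z, hz, rfl⟩ := hw
  rw [ContinuousAt, H.invf_fh hz, Metric.nhds_basis_ball.tendsto_right_iff]
  intro ε hε
  have hop : IsOpen (fh h '' (ball z ε ∩ ball 0 1)) :=
    H.isOpen_image (isOpen_ball.inter isOpen_ball) inter_subset_right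
  have hmem : fh h z ∈ fh h '' (ball z ε ∩ ball 0 1) := ⟨z, ⟨mem_ball_self hε, hz⟩, rfl⟩
  filter_upwards [hop.mem_nhds hmem] with w hw
  obtain ⟨z', hz', rfl⟩ := hw
  rw [H.invf_fh hz'.2]
  exact hz'.1

lemma Good.hasDerivAt_invf (H : Good h) {w : ℂ} (hw : w ∈ fh h '' ball 0 1) :
    DifferentiableAt ℂ (invf h) w := by
  have h1 := H.hasDerivAt_fh (invf_mem hw)
  have hne : exp (h (invf h w)) * ph h (invf h w) ≠ 0 :=
    mul_ne_zero (exp_ne_zero _) (H.ph_ne (invf_mem hw))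
  have hop : IsOpen (fh h '' ball 0 1) := H.isOpen_image isOpen_ball subset_rfl
  have h2 := HasDerivAt.of_local_left_inverse (H.continuousAt_invf hw) h1 hne (by
    filter_upwards [hop.mem_nhds hw] with v hv
    exact fh_invf hv)
  exact h2.differentiableAt

/-- Symmetrised subordination: if `f(ball 0 r)` is convex then `Re f(x e^{iθ}) ≤ f(x)`. -/
lemma Good.re_le_of_convex (H : Good h) (hs : RealSym h) {r x : ℝ} (hr1 : r ≤ 1) (hx0 : 0 < x)
    (hxr : x < r) (hconv : Convex ℝ (fh h '' ball 0 r)) (θ : ℝ) :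
    (fh h (x * exp (θ * I))).re ≤ (fh h x).re := by
  have hsub : ball (0:ℂ) r ⊆ ball 0 1 := ball_subset_ball hr1
  have hrot : ∀ (θ : ℝ) (z : ℂ), z ∈ ball (0:ℂ) r → exp (θ * I) * z ∈ ball (0:ℂ) r := by
    intro θ z hz
    rw [mem_ball_zero_iff] at hz ⊢
    rwa [norm_mul, norm_exp_ofReal_mul_I, one_mul]
  set F : ℂ → ℂ := fun z => (1/2 : ℂ) * fh h (exp (θ * I) * z) + (1/2 : ℂ) * fh h (exp ((-θ : ℝ) * I) * z)
    with hF
  have hFmem : ∀ z ∈ ball (0:ℂ) r, F z ∈ fh h '' ball 0 r := by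
    intro z hz
    have h1 := hconv (x := fh h (exp (θ * I) * z)) ⟨_, hrot θ z hz, rfl⟩
      (y := fh h (exp ((-θ : ℝ) * I) * z)) ⟨_, hrot (-θ) z hz, rfl⟩
      (a := 1/2) (b := 1/2) (by norm_num) (by norm_num) (by norm_num)
    have h2 : (1/2 : ℝ) • fh h (exp (θ * I) * z) + (1/2 : ℝ) • fh h (exp ((-θ : ℝ) * I) * z) = F z := by
      simp only [hF, real_smul]
      push_cast
      ring
    rwa [h2] at h1
  have hFd : DifferentiableOn ℂ (fun z => invf h (F z)) (ball 0 r) := by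
    intro z hz
    have e1 := (H.hasDerivAt_fh (hsub (hrot θ z hz))).differentiableAt
    have e2 := (H.hasDerivAt_fh (hsub (hrot (-θ) z hz))).differentiableAt
    have e3 : DifferentiableAt ℂ F z := by
      simp only [hF]
      apply DifferentiableAt.add
      · apply DifferentiableAt.const_mul
        exact DifferentiableAt.comp z e1 (by fun_prop)
      · apply DifferentiableAt.const_mul
        exact DifferentiableAt.comp z e2 (by fun_prop)
    have e4 : DifferentiableAt ℂ (invf h) (F z) :=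
      H.hasDerivAt_invf (image_mono hsub (hFmem z hz))
    exact (DifferentiableAt.comp z e4 e3).differentiableWithinAt
  have hmaps : MapsTo (fun z => invf h (F z)) (ball 0 r) (closedBall 0 r) := by
    intro z hz
    obtain ⟨z', hz', hz''⟩ := hFmem z hz
    apply ball_subset_closedBall
    simp only
    rw [← hz'', H.invf_fh (hsub hz')]
    exact hz'
  have hF0 : invf h (F 0) = 0 := by
    have : F 0 = fh h 0 := by simp [hF, fh_zero]
    rw [this]
    exact H.invf_fh (by simp)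
  have hxb : (x:ℂ) ∈ ball (0:ℂ) r := by
    rw [mem_ball_zero_iff, norm_real, Real.norm_eq_abs, abs_of_pos hx0]
    exact hxr
  have hS := norm_le_norm_of_mapsTo_ball hFd hmaps hF0 (z := (x:ℂ)) (mem_ball_zero_iff.1 hxb)
  rw [norm_real, Real.norm_eq_abs, abs_of_pos hx0] at hS
  -- `F x` is real
  obtain ⟨y, hy, hyF⟩ := hFmem x hxb
  have hinv : invf h (F x) = y := by rw [← hyF, H.invf_fh (hsub hy)]
  rw [hinv] at hS
  have hconjexp : (starRingEnd ℂ) (exp (θ * I) * x) = exp ((-θ : ℝ) * I) * x := by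
    rw [map_mul, conj_exp_mul_I, conj_ofReal]
    push_cast
    rfl
  have hFx : F x = ((fh h (x * exp (θ * I))).re : ℂ) := by
    simp only [hF]
    rw [← hconjexp, hs.fh (hsub (hrot θ _ hxb)), mul_comm (exp (θ * I)) (x:ℂ)]
    rw [← mul_add, add_conj]
    push_cast
    ring
  have hyreal : (starRingEnd ℂ) y = y := by
    apply H.injOn (conj_mem (hsub hy)) (hsub hy)
    rw [hs.fh (hsub hy), hyF, hFx, conj_ofReal]
  have hy2 : y = (y.re : ℂ) := (conj_eq_iff_re.1 hyreal).symm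
  have hyabs : |y.re| ≤ x := by
    rw [hy2, norm_real, Real.norm_eq_abs] at hS
    exact hS
  have hfy : (fh h (x * exp (θ * I))).re = (fh h (y.re : ℂ)).re := by
    rw [← hy2, hyF, hFx, ofReal_re]
  rw [hfy]
  have h7 := abs_le.1 hyabs
  apply H.real_mono hs _ h7.2 (hxr.trans_le hr1)
  linarith

lemma RealSym.ph_im (H : Good h) (hs : RealSym h) {x : ℝ} (hx : (x:ℂ) ∈ ball (0:ℂ) 1) :
    (ph h x).im = 0 := by
  have h1 := ((imCLM.hasFDerivAt (x := h x)).comp_hasDerivAt x ((H.hasDerivAt hx).comp_ofReal))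
  have h2 : (⇑imCLM ∘ fun y : ℝ => h (y:ℂ)) =ᶠ[nhds x] fun _ => 0 := by
    have : {y : ℝ | (y:ℂ) ∈ ball (0:ℂ) 1} ∈ nhds x := by
      have hc : Continuous fun y : ℝ => (y:ℂ) := continuous_ofReal
      exact hc.continuousAt.preimage_mem_nhds (isOpen_ball.mem_nhds hx)
    filter_upwards [this] with y hy
    simp [hs.ofReal hy]
  have h3 := h2.deriv_eq
  rw [h1.deriv, deriv_const] at h3
  simp only [imCLM_apply] at h3
  simp [ph, h3]

/-- Necessary condition for convexity on the positive real axis. -/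
theorem Good.kap_nonneg_of_convex (H : Good h) (hs : RealSym h) {r x : ℝ} (hr1 : r ≤ 1)
    (hx0 : 0 < x) (hxr : x < r) (hconv : Convex ℝ (fh h '' ball 0 r)) :
    0 ≤ (kap h x).re := by
  by_contra hneg
  push Not at hneg
  have hx1 : x < 1 := hxr.trans_le hr1
  have hxb : (x:ℂ) ∈ ball (0:ℂ) 1 := by
    rw [mem_ball_zero_iff, norm_real, Real.norm_eq_abs, abs_of_pos hx0]
    exact hx1
  have hmax := H.re_le_of_convex hs hr1 hx0 hxr hconv
  set u : ℝ → ℝ := fun θ => (fh h (x * exp (θ * I))).re with hu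
  have hd1 : ∀ θ : ℝ, HasDerivAt u
      (-(‖fh h (x * exp (θ * I)) * ph h (x * exp (θ * I))‖ * Real.sin (psi h x θ))) θ := by
    intro θ
    have h1 := (reCLM.hasFDerivAt).comp_hasDerivAt θ (H.hasDerivAt_f_circ hx0 hx1 θ)
    refine h1.congr_deriv ?_
    rw [H.n_eq hx0 hx1 θ, reCLM_apply, I_mul_re, im_ofReal_mul, exp_ofReal_mul_I_im]
    simp
  have hpsi0 : psi h x 0 = 0 := by
    simp only [psi, ofReal_zero, zero_mul, exp_zero, mul_one, zero_add, add_im]
    rw [hs.ofReal hxb, log_im, zero_add]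
    rw [arg_eq_zero_iff]
    exact ⟨(H.pos _ hxb).le, hs.ph_im H hxb⟩
  have hpsi := H.hasDerivAt_psi hx0 hx1 0
  rw [ofReal_zero, zero_mul, exp_zero, mul_one] at hpsi
  -- `psi < 0` just to the right of `0`
  have hev : ∀ᶠ θ in nhdsWithin (0:ℝ) (Ioi 0), psi h x θ < 0 := by
    have h1 := (hpsi.tendsto_slope_zero_right).eventually (gt_mem_nhds hneg)
    filter_upwards [h1, self_mem_nhdsWithin] with θ hθ hθ0
    rw [zero_add, hpsi0, sub_zero, smul_eq_mul] at hθ
    have h2 : (0:ℝ) < θ := hθ0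
    by_contra hcon
    push Not at hcon
    have : 0 ≤ θ⁻¹ * psi h x θ := mul_nonneg (inv_nonneg.2 h2.le) hcon
    linarith
  have hcontpsi : ContinuousAt (psi h x) 0 := hpsi.continuousAt
  have hev2 : ∀ᶠ θ in nhdsWithin (0:ℝ) (Ioi 0), -Real.pi < psi h x θ := by
    have : ∀ᶠ θ in nhds (0:ℝ), -Real.pi < psi h x θ := by
      apply hcontpsi.eventually
      rw [hpsi0]
      exact lt_mem_nhds (neg_lt_zero.2 Real.pi_pos)
    exact this.filter_mono nhdsWithin_le_nhds
  obtain ⟨δ, hδ, hδ'⟩ := mem_nhdsGT_iff_exists_Ioo_subset.1 (hev.and hev2)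
  have hδ0 : (0:ℝ) < δ := hδ
  have hcont : Continuous u := continuous_iff_continuousAt.2 fun t => (hd1 t).continuousAt
  have hmono : StrictMonoOn u (Icc 0 (δ/2)) := by
    apply strictMonoOn_of_deriv_pos (convex_Icc _ _) hcont.continuousOn
    intro t ht
    rw [interior_Icc] at ht
    rw [(hd1 t).deriv, neg_pos]
    obtain ⟨h3, h4⟩ := hδ' ⟨ht.1, by linarith [ht.2]⟩
    apply mul_neg_of_pos_of_neg
    · rw [norm_pos_iff]
      apply mul_ne_zero
      · intro h0
        rw [fh_eq_zero] at h0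
        have := norm_circ hx0 t
        rw [h0, norm_zero] at this
        exact hx0.ne this
      · exact H.ph_ne (circ_mem hx0 hx1 t)
    · exact Real.sin_neg_of_neg_of_neg_pi_lt h3 h4
  have h5 := hmono (left_mem_Icc.2 (by linarith)) (right_mem_Icc.2 (by linarith))
    (show (0:ℝ) < δ/2 by linarith)
  have h6 := hmax (δ/2)
  have h7 : u 0 = (fh h x).re := by simp [hu]
  rw [h7] at h5
  have h8 : u (δ/2) = (fh h (x * exp ((δ/2 : ℝ) * I))).re := rfl
  rw [h8] at h5
  linarith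

end Pool.Agent.Lib_helper46.Schild
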