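import Pool.Agent.Lib_helper46.Schild.Topo

set_option autoImplicit false

open Complex Metric Set

namespace Pool.Agent.Lib_helper46.Schild

variable {h : ℂ → ℂ}

/-- `1 + z f''(z) / f'(z)` for `f = fh h`. -/
noncomputable def kap (h : ℂ → ℂ) (z : ℂ) : ℂ := ph h z + z * deriv (ph h) z / ph h z

lemma norm_fh (z : ℂ) : ‖fh h z‖ = ‖z‖ * Real.exp (h z).re := by
  simp [fh, norm_exp]

lemma exp_log_add {r : ℝ} (hr : 0 < r) (θ : ℝ) :
    exp ((Real.log r : ℂ) + θ * I) = r * exp (θ * I) := by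
  rw [exp_add, ← ofReal_exp, Real.exp_log hr]

lemma norm_circ {r : ℝ} (hr : 0 < r) (θ : ℝ) : ‖(r:ℂ) * exp (θ * I)‖ = r := by
  rw [norm_mul, norm_exp_ofReal_mul_I, mul_one, norm_real, Real.norm_eq_abs, abs_of_pos hr]

lemma circ_mem {r : ℝ} (hr : 0 < r) (hr1 : r < 1) (θ : ℝ) : (r:ℂ) * exp (θ * I) ∈ ball (0:ℂ) 1 := by
  rw [mem_ball_zero_iff, norm_circ hr]
  exact hr1

lemma hasDerivAt_circ (r θ : ℝ) :
    HasDerivAt (fun θ : ℝ => (r:ℂ) * exp (θ * I)) (I * (r * exp (θ * I))) θ := by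
  have h1 : HasDerivAt (fun θ : ℝ => (θ:ℂ) * I) I θ := by
    simpa using ((hasDerivAt_id (θ:ℂ)).comp_ofReal).mul_const I
  have h2 := (h1.cexp).const_mul (r:ℂ)
  refine h2.congr_deriv ?_
  ring

lemma Good.hasDerivAt_h_circ (H : Good h) {r : ℝ} (hr : 0 < r) (hr1 : r < 1) (θ : ℝ) :
    HasDerivAt (fun θ : ℝ => h (r * exp (θ * I))) (I * (ph h (r * exp (θ * I)) - 1)) θ := by
  have h1 := (H.hasDerivAt (circ_mem hr hr1 θ)).scomp θ (hasDerivAt_circ r θ)
  refine h1.congr_deriv ?_
  simp only [ph, smul_eq_mul]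
  ring

lemma Good.hasDerivAt_f_circ (H : Good h) {r : ℝ} (hr : 0 < r) (hr1 : r < 1) (θ : ℝ) :
    HasDerivAt (fun θ : ℝ => fh h (r * exp (θ * I)))
      (I * (fh h (r * exp (θ * I)) * ph h (r * exp (θ * I)))) θ := by
  have h1 := (H.hasDerivAt_fh (circ_mem hr hr1 θ)).scomp θ (hasDerivAt_circ r θ)
  refine h1.congr_deriv ?_
  simp only [fh, smul_eq_mul]
  ring

lemma Good.differentiableOn_ph (H : Good h) : DifferentiableOn ℂ (ph h) (ball 0 1) := by
  unfold ph
  have := (H.diff.deriv isOpen_ball)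
  fun_prop

lemma Good.hasDerivAt_ph (H : Good h) {z : ℂ} (hz : z ∈ ball (0:ℂ) 1) :
    HasDerivAt (ph h) (deriv (ph h) z) z :=
  ((H.differentiableOn_ph z hz).differentiableAt (isOpen_ball.mem_nhds hz)).hasDerivAt

lemma Good.ph_mem_slitPlane (H : Good h) {z : ℂ} (hz : z ∈ ball (0:ℂ) 1) :
    ph h z ∈ slitPlane := Or.inl (H.pos z hz)

/-- derivative of the tangent-angle function. -/
lemma Good.hasDerivAt_log_ph (H : Good h) {r : ℝ} (hr : 0 < r) (hr1 : r < 1) (θ : ℝ) :
    HasDerivAt (fun θ : ℝ => h (r * exp (θ * I)) + log (ph h (r * exp (θ * I))))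
      (I * (kap h (r * exp (θ * I)) - 1)) θ := by
  have hz := circ_mem hr hr1 θ
  have h1 := ((H.hasDerivAt_ph hz).clog (H.ph_mem_slitPlane hz)).scomp θ (hasDerivAt_circ r θ)
  have h2 := (H.hasDerivAt_h_circ hr hr1 θ).add h1
  refine h2.congr_deriv ?_
  simp only [kap, smul_eq_mul]
  ring

/-- The tangent angle. -/
noncomputable def psi (h : ℂ → ℂ) (r θ : ℝ) : ℝ :=
  θ + (h (r * exp (θ * I)) + log (ph h (r * exp (θ * I)))).im

lemma Good.hasDerivAt_psi (H : Good h) {r : ℝ} (hr : 0 < r) (hr1 : r < 1) (θ : ℝ) :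
    HasDerivAt (psi h r) (kap h (r * exp (θ * I))).re θ := by
  have h1 := (imCLM.hasFDerivAt).comp_hasDerivAt θ (H.hasDerivAt_log_ph hr hr1 θ)
  have h2 := (hasDerivAt_id θ).add h1
  refine h2.congr_deriv ?_
  simp [imCLM_apply]

lemma exp_two_pi (θ : ℝ) : exp (((θ + 2 * Real.pi : ℝ) : ℂ) * I) = exp (θ * I) := by
  have : (((θ + 2 * Real.pi : ℝ) : ℂ) * I) = θ * I + 2 * Real.pi * I := by
    push_cast; ring
  rw [this]
  exact exp_periodic _

lemma psi_two_pi (r θ : ℝ) : psi h r (θ + 2 * Real.pi) = psi h r θ + 2 * Real.pi := by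
  simp only [psi, exp_two_pi]
  ring

/-- `z f'(z)` on the circle in polar form. -/
lemma Good.n_eq (H : Good h) {r : ℝ} (hr : 0 < r) (hr1 : r < 1) (θ : ℝ) :
    fh h (r * exp (θ * I)) * ph h (r * exp (θ * I)) =
      (‖fh h (r * exp (θ * I)) * ph h (r * exp (θ * I))‖ : ℂ) * exp (psi h r θ * I) := by
  have hz := circ_mem hr hr1 θ
  set z := (r:ℂ) * exp (θ * I) with hzdef
  have hp := H.ph_ne hz
  have e1 : fh h z * ph h z = exp ((Real.log r : ℂ) + θ * I + (h z + log (ph h z))) := by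
    rw [exp_add, exp_log_add hr, exp_add, exp_log hp, ← hzdef, fh]
    ring
  have e2 : ‖fh h z * ph h z‖ = Real.exp (Real.log r + (h z + log (ph h z)).re) := by
    rw [e1, norm_exp]
    simp
  rw [e2, e1, psi, ofReal_exp, ← exp_add, ← hzdef]
  congr 1
  apply Complex.ext <;> simp

lemma conj_exp_mul_I (a : ℝ) : (starRingEnd ℂ) (exp (a * I)) = exp (-(a:ℂ) * I) := by
  rw [← exp_conj]
  congr 1
  simp

/-- The derivative of the support functional along the circle. -/
lemma Good.hasDerivAt_v (H : Good h) {r : ℝ} (hr : 0 < r) (hr1 : r < 1) (θ0 θ : ℝ) :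
    HasDerivAt (fun θ : ℝ =>
      ((starRingEnd ℂ) (fh h (r * exp (θ0 * I)) * ph h (r * exp (θ0 * I))) *
        (fh h (r * exp (θ * I)) - fh h (r * exp (θ0 * I)))).re)
      (-(‖fh h (r * exp (θ0 * I)) * ph h (r * exp (θ0 * I))‖ *
        ‖fh h (r * exp (θ * I)) * ph h (r * exp (θ * I))‖ *
        Real.sin (psi h r θ - psi h r θ0))) θ := by
  have h1 := ((H.hasDerivAt_f_circ hr hr1 θ).sub_const (fh h (r * exp (θ0 * I)))).const_mul
    ((starRingEnd ℂ) (fh h (r * exp (θ0 * I)) * ph h (r * exp (θ0 * I))))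
  have h2 := (reCLM.hasFDerivAt).comp_hasDerivAt θ h1
  refine h2.congr_deriv ?_
  rw [H.n_eq hr hr1 θ, H.n_eq hr hr1 θ0]
  simp only [map_mul, conj_ofReal, conj_exp_mul_I, reCLM_apply, norm_mul, norm_real,
    norm_norm, norm_exp_ofReal_mul_I, mul_one]
  set A := ‖fh h (r * exp (θ0 * I))‖
  set A' := ‖ph h (r * exp (θ0 * I))‖
  set B := ‖fh h (r * exp (θ * I))‖
  set B' := ‖ph h (r * exp (θ * I))‖
  have e1 : (((A * A' : ℝ) : ℂ) * exp (-(psi h r θ0 : ℂ) * I)) *
      (I * ((((B * B' : ℝ)):ℂ) * exp (psi h r θ * I)))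
      = ((A * A' * (B * B') : ℝ) : ℂ) * (I * exp (((psi h r θ - psi h r θ0 : ℝ) : ℂ) * I)) := by
    have : exp (((psi h r θ - psi h r θ0 : ℝ) : ℂ) * I)
        = exp (-(psi h r θ0 : ℂ) * I) * exp (psi h r θ * I) := by
      rw [← exp_add]
      congr 1
      push_cast
      ring
    rw [this]
    push_cast
    ring
  have e2 : (I * exp (((psi h r θ - psi h r θ0 : ℝ) : ℂ) * I)).re
      = - Real.sin (psi h r θ - psi h r θ0) := by
    rw [I_mul_re, exp_ofReal_mul_I_im]
  rw [e1, re_ofReal_mul, e2]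
  ring


/-- Every point of the circle is on the inner side of each tangent line. -/
lemma Good.halfplane_circ (H : Good h) {r : ℝ} (hr : 0 < r) (hr1 : r < 1)
    (hk : ∀ z, ‖z‖ = r → 0 ≤ (kap h z).re) (θ0 θ : ℝ) (hθ0 : θ0 ≤ θ)
    (hθ1 : θ ≤ θ0 + 2 * Real.pi) :
    ((starRingEnd ℂ) (fh h (r * exp (θ0 * I)) * ph h (r * exp (θ0 * I))) *
        (fh h (r * exp (θ * I)) - fh h (r * exp (θ0 * I)))).re ≤ 0 := by
  set v : ℝ → ℝ := fun θ : ℝ =>
      ((starRingEnd ℂ) (fh h (r * exp (θ0 * I)) * ph h (r * exp (θ0 * I))) *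
        (fh h (r * exp (θ * I)) - fh h (r * exp (θ0 * I)))).re with hv
  have hder := H.hasDerivAt_v hr hr1 θ0
  have hmono : Monotone (psi h r) := by
    apply monotone_of_deriv_nonneg
    · intro t
      exact (H.hasDerivAt_psi hr hr1 t).differentiableAt
    · intro t
      rw [(H.hasDerivAt_psi hr hr1 t).deriv]
      exact hk _ (norm_circ hr t)
  have hv0 : v θ0 = 0 := by simp [hv]
  have hv1 : v (θ0 + 2 * Real.pi) = 0 := by
    simp only [hv, exp_two_pi]
    simp
  have hcont : Continuous v := continuous_iff_continuousAt.2 fun t => (hder t).continuousAt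
  have hdiff : ∀ t, HasDerivAt v _ t := hder
  change v θ ≤ 0
  rcases le_total (psi h r θ - psi h r θ0) Real.pi with hc | hc
  · have hanti : AntitoneOn v (Icc θ0 θ) := by
      apply antitoneOn_of_deriv_nonpos (convex_Icc _ _) hcont.continuousOn
      · intro t _
        exact (hdiff t).differentiableAt.differentiableWithinAt
      · intro t ht
        rw [interior_Icc] at ht
        rw [(hdiff t).deriv, neg_nonpos]
        have h1 : 0 ≤ psi h r t - psi h r θ0 := sub_nonneg.2 (hmono ht.1.le)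
        have h2 : psi h r t - psi h r θ0 ≤ Real.pi := by
          have := hmono ht.2.le
          linarith
        exact mul_nonneg (mul_nonneg (norm_nonneg _) (norm_nonneg _))
          (Real.sin_nonneg_of_nonneg_of_le_pi h1 h2)
    have := hanti (left_mem_Icc.2 hθ0) (right_mem_Icc.2 hθ0) hθ0
    rwa [hv0] at this
  · have hmon : MonotoneOn v (Icc θ (θ0 + 2 * Real.pi)) := by
      apply monotoneOn_of_deriv_nonneg (convex_Icc _ _) hcont.continuousOn
      · intro t _
        exact (hdiff t).differentiableAt.differentiableWithinAt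
      · intro t ht
        rw [interior_Icc] at ht
        rw [(hdiff t).deriv, neg_nonneg]
        have h1 : Real.pi ≤ psi h r t - psi h r θ0 := by
          have := hmono ht.1.le
          linarith
        have h2 : psi h r t - psi h r θ0 ≤ 2 * Real.pi := by
          have := hmono ht.2.le
          rw [psi_two_pi] at this
          linarith
        have h3 : Real.sin (psi h r t - psi h r θ0) ≤ 0 := by
          have h4 : 0 ≤ Real.sin (psi h r t - psi h r θ0 - Real.pi) :=
            Real.sin_nonneg_of_nonneg_of_le_pi (by linarith) (by linarith)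
          rw [Real.sin_sub_pi] at h4
          linarith
        exact mul_nonpos_of_nonneg_of_nonpos (mul_nonneg (norm_nonneg _) (norm_nonneg _)) h3
    have := hmon (left_mem_Icc.2 hθ1) (right_mem_Icc.2 hθ1) hθ1
    rwa [hv1] at this

lemma eq_circ {r : ℝ} {z : ℂ} (hz : ‖z‖ = r) : z = r * exp (arg z * I) := by
  rw [← hz]; exact (norm_mul_exp_arg_mul_I z).symm

/-- The closed disc is mapped to the inner side of each tangent line. -/
lemma Good.halfplane (H : Good h) {r : ℝ} (hr : 0 < r) (hr1 : r < 1)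
    (hk : ∀ z, ‖z‖ = r → 0 ≤ (kap h z).re) {z0 z : ℂ} (hz0 : ‖z0‖ = r) (hz : ‖z‖ ≤ r) :
    ((starRingEnd ℂ) (fh h z0 * ph h z0) * (fh h z - fh h z0)).re ≤ 0 := by
  have hcirc : ∀ z, ‖z‖ = r →
      ((starRingEnd ℂ) (fh h z0 * ph h z0) * (fh h z - fh h z0)).re ≤ 0 := by
    intro z hz
    have e0 := eq_circ hz0
    rcases le_total (arg z0) (arg z) with hle | hle
    · have h1 := H.halfplane_circ hr hr1 hk (arg z0) (arg z) hle (by
        have := arg_le_pi z
        have := neg_pi_lt_arg z0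
        linarith)
      rwa [← eq_circ hz, ← e0] at h1
    · have h1 := H.halfplane_circ hr hr1 hk (arg z0) (arg z + 2 * Real.pi) (by
        have := arg_le_pi z0
        have := neg_pi_lt_arg z
        linarith) (by linarith)
      rwa [exp_two_pi, ← eq_circ hz, ← e0] at h1
  have hd : DiffContOnCl ℂ
      (fun z => exp ((starRingEnd ℂ) (fh h z0 * ph h z0) * (fh h z - fh h z0))) (ball 0 r) := by
    apply DifferentiableOn.diffContOnCl
    intro w hw
    rw [closure_ball _ hr.ne'] at hw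
    have h2 := (H.hasDerivAt_fh (closedBall_subset hr1 hw)).differentiableAt
    exact (((h2.sub_const _).const_mul _).cexp).differentiableWithinAt
  have h3 := Complex.norm_le_of_forall_mem_frontier_norm_le (isBounded_ball (x := (0:ℂ)) (r := r)) hd
    (C := 1) (by
      intro w hw
      rw [_root_.frontier_ball _ hr.ne', mem_sphere_zero_iff_norm] at hw
      rw [norm_exp, Real.exp_le_one_iff]
      exact hcirc w hw) (z := z) (by
      rw [closure_ball _ hr.ne', mem_closedBall_zero_iff]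
      exact hz)
  rwa [norm_exp, Real.exp_le_one_iff] at h3

/-- Convexity criterion. -/
theorem Good.convex_image (H : Good h) {r : ℝ} (hr : 0 < r) (hr1 : r < 1)
    (hk : ∀ z, ‖z‖ = r → 0 ≤ (kap h z).re) : Convex ℝ (fh h '' ball 0 r) := by
  have hop : IsOpen (fh h '' ball 0 r) := H.isOpen_image isOpen_ball (ball_subset_ball hr1.le)
  rw [convex_iff_segment_subset]
  intro w1 hw1 w2 hw2 w hw
  by_contra hcon
  obtain ⟨w0, hw0, hw0f⟩ := meets_frontier (convex_segment (𝕜 := ℝ) w1 w2).isPreconnected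
    ⟨w1, left_mem_segment ℝ w1 w2, hw1⟩ ⟨w, hw, hcon⟩
  obtain ⟨z0, hz0, hz0w⟩ := H.frontier_ball hr1 hw0f
  rw [mem_sphere_zero_iff_norm] at hz0
  have hz0b : z0 ∈ ball (0:ℂ) 1 := by rw [mem_ball_zero_iff, hz0]; exact hr1
  have hw0n : w0 ∉ fh h '' ball 0 r := by
    have := hw0f.2
    rwa [hop.interior_eq] at this
  set n := fh h z0 * ph h z0 with hn
  have hn0 : n ≠ 0 := by
    apply mul_ne_zero _ (H.ph_ne hz0b)
    intro h0
    rw [fh_eq_zero] at h0
    rw [h0, norm_zero] at hz0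
    exact hr.ne hz0
  -- strict inequality on the open image
  have hstrict : ∀ w ∈ fh h '' ball 0 r, ((starRingEnd ℂ) n * (w - w0)).re < 0 := by
    intro w hw
    have hev : ∀ᶠ ε : ℝ in nhds 0, w + ε * n ∈ fh h '' ball 0 r := by
      have hc : Continuous fun ε : ℝ => w + (ε:ℂ) * n := by fun_prop
      have h9 : fh h '' ball 0 r ∈ nhds (w + ((0:ℝ):ℂ) * n) := by
        simpa using hop.mem_nhds hw
      exact hc.continuousAt h9
    obtain ⟨ε, hε, hεpos⟩ : ∃ ε : ℝ, w + ε * n ∈ fh h '' ball 0 r ∧ 0 < ε := by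
      have := (hev.filter_mono nhdsWithin_le_nhds).and (self_mem_nhdsWithin (s := Ioi (0:ℝ)))
      exact this.exists
    obtain ⟨z, hz, hzw⟩ := hε
    rw [mem_ball_zero_iff] at hz
    have h4 := H.halfplane hr hr1 hk hz0 hz.le
    rw [← hn, hzw, hz0w] at h4
    have h5 : (starRingEnd ℂ) n * (w + ε * n - w0)
        = (starRingEnd ℂ) n * (w - w0) + ((ε * normSq n : ℝ) : ℂ) := by
      have : (normSq n : ℂ) = (starRingEnd ℂ) n * n := normSq_eq_conj_mul_self
      push_cast
      rw [this]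
      ring
    rw [h5, add_re, ofReal_re] at h4
    have h6 : 0 < ε * normSq n := mul_pos hεpos (normSq_pos.2 hn0)
    linarith
  obtain ⟨a, b, ha, hb, hab, hw0eq⟩ := hw0
  have h1 := hstrict w1 hw1
  have h2 := hstrict w2 hw2
  have h3 : (starRingEnd ℂ) n * (w0 - w0) =
      (a:ℂ) * ((starRingEnd ℂ) n * (w1 - w0)) + (b:ℂ) * ((starRingEnd ℂ) n * (w2 - w0)) := by
    have habc : (a:ℂ) + b = 1 := by exact_mod_cast hab
    have : (a:ℂ) * w1 + b * w2 = w0 := by simpa using hw0eq
    have h7 : (a:ℂ) * ((starRingEnd ℂ) n * (w1 - w0)) + (b:ℂ) * ((starRingEnd ℂ) n * (w2 - w0))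
        = (starRingEnd ℂ) n * ((a * w1 + b * w2) - (a + b) * w0) := by ring
    rw [h7, this, habc, one_mul]
  have h4 := congrArg Complex.re h3
  rw [sub_self, mul_zero, add_re, re_ofReal_mul, re_ofReal_mul, zero_re] at h4
  rcases ha.lt_or_eq with ha' | ha'
  · have h8 : a * ((starRingEnd ℂ) n * (w1 - w0)).re < 0 := mul_neg_of_pos_of_neg ha' h1
    have h9 : b * ((starRingEnd ℂ) n * (w2 - w0)).re ≤ 0 :=
      mul_nonpos_of_nonneg_of_nonpos hb h2.le
    linarith
  · have hb' : b = 1 := by linarith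
    rw [← ha', hb'] at h4
    linarith

/-- `|f|` on a circle is minimal at `-r` when `Im p` has the sign of `Im z`. -/
lemma Good.norm_ge_neg (H : Good h) {r : ℝ} (hr : 0 < r) (hr1 : r < 1)
    (hup : ∀ z ∈ ball (0:ℂ) 1, 0 < z.im → 0 ≤ (ph h z).im)
    (hdn : ∀ z ∈ ball (0:ℂ) 1, z.im < 0 → (ph h z).im ≤ 0) {z : ℂ} (hz : ‖z‖ = r) :
    ‖fh h (-(r:ℂ))‖ ≤ ‖fh h z‖ := by
  set u : ℝ → ℝ := fun θ => (h (r * exp (θ * I))).re with hu
  have hder : ∀ θ : ℝ, HasDerivAt u (-(ph h (r * exp (θ * I))).im) θ := by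
    intro θ
    have h1 := (reCLM.hasFDerivAt).comp_hasDerivAt θ (H.hasDerivAt_h_circ hr hr1 θ)
    refine h1.congr_deriv ?_
    simp
  have hcont : Continuous u := continuous_iff_continuousAt.2 fun t => (hder t).continuousAt
  have him : ∀ θ : ℝ, ((r:ℂ) * exp (θ * I)).im = r * Real.sin θ := by
    intro θ
    rw [im_ofReal_mul, exp_ofReal_mul_I_im]
  have hpi : (r:ℂ) * exp ((Real.pi : ℝ) * I) = -(r:ℂ) := by
    rw [exp_pi_mul_I]; ring
  have hnpi : (r:ℂ) * exp (((-Real.pi : ℝ) : ℂ) * I) = -(r:ℂ) := by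
    have : (((-Real.pi : ℝ) : ℂ) * I) = -(Real.pi * I) := by push_cast; ring
    rw [this, exp_neg, exp_pi_mul_I]; norm_num
  have key : (h (-(r:ℂ))).re ≤ (h z).re := by
    rw [eq_circ hz]
    rcases le_total 0 (arg z) with hle | hle
    · have hanti : AntitoneOn u (Icc 0 Real.pi) := by
        apply antitoneOn_of_deriv_nonpos (convex_Icc _ _) hcont.continuousOn
        · intro t _
          exact (hder t).differentiableAt.differentiableWithinAt
        · intro t ht
          rw [interior_Icc] at ht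
          rw [(hder t).deriv, neg_nonpos]
          apply hup _ (circ_mem hr hr1 t)
          rw [him]
          exact mul_pos hr (Real.sin_pos_of_pos_of_lt_pi ht.1 ht.2)
      have h1 := hanti (a := arg z) (b := Real.pi) ⟨hle, arg_le_pi z⟩
        ⟨Real.pi_pos.le, le_refl _⟩ (arg_le_pi z)
      simp only [hu] at h1
      rwa [hpi] at h1
    · have hmon : MonotoneOn u (Icc (-Real.pi) 0) := by
        apply monotoneOn_of_deriv_nonneg (convex_Icc _ _) hcont.continuousOn
        · intro t _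
          exact (hder t).differentiableAt.differentiableWithinAt
        · intro t ht
          rw [interior_Icc] at ht
          rw [(hder t).deriv, neg_nonneg]
          apply hdn _ (circ_mem hr hr1 t)
          rw [him]
          exact mul_neg_of_pos_of_neg hr (Real.sin_neg_of_neg_of_neg_pi_lt ht.2 ht.1)
      have h1 := hmon (a := -Real.pi) (b := arg z) ⟨le_refl _, neg_nonpos.2 Real.pi_pos.le⟩
        ⟨(neg_pi_lt_arg z).le, hle⟩ (neg_pi_lt_arg z).le
      simp only [hu] at h1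
      rwa [hnpi] at h1
  rw [norm_fh, norm_fh, hz, norm_neg, norm_real, Real.norm_eq_abs, abs_of_pos hr]
  gcongr

/-- Logarithmic derivative of `|f|` along the negative real axis. -/
lemma Good.hasDerivAt_neg (H : Good h) {x : ℝ} (hx0 : 0 < x) (hx1 : x < 1) :
    HasDerivAt (fun x : ℝ => Real.log x + (h (-(x:ℂ))).re) ((ph h (-(x:ℂ))).re / x) x := by
  have hz : -(x:ℂ) ∈ ball (0:ℂ) 1 := by
    rw [mem_ball_zero_iff, norm_neg, norm_real, Real.norm_eq_abs, abs_of_pos hx0]
    exact hx1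
  have h1 : HasDerivAt (fun x : ℝ => -(x:ℂ)) (-1) x :=
    ((hasDerivAt_id (x:ℂ)).comp_ofReal).neg
  have h2 := (H.hasDerivAt hz).scomp x h1
  have h3 := (reCLM.hasFDerivAt).comp_hasDerivAt x h2
  have h4 := (Real.hasDerivAt_log hx0.ne').add h3
  refine h4.congr_deriv ?_
  simp only [ph, smul_eq_mul, reCLM_apply, add_re, one_re]
  have : (-(x:ℂ) * deriv h (-(x:ℂ))).re = -(x * (deriv h (-(x:ℂ))).re) := by
    rw [neg_mul, neg_re, re_ofReal_mul]
  rw [this]
  simp
  field_simp

lemma norm_fh_neg {x : ℝ} (hx0 : 0 < x) :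
    ‖fh h (-(x:ℂ))‖ = Real.exp (Real.log x + (h (-(x:ℂ))).re) := by
  rw [norm_fh, norm_neg, norm_real, Real.norm_eq_abs, abs_of_pos hx0, Real.exp_add,
    Real.exp_log hx0]

/-- `|f(-x)|` is increasing. -/
lemma Good.norm_neg_mono (H : Good h) {x y : ℝ} (hx0 : 0 < x) (hxy : x ≤ y) (hy1 : y < 1) :
    ‖fh h (-(x:ℂ))‖ ≤ ‖fh h (-(y:ℂ))‖ := by
  rw [norm_fh_neg hx0, norm_fh_neg (hx0.trans_le hxy), Real.exp_le_exp]
  have hmon : MonotoneOn (fun x : ℝ => Real.log x + (h (-(x:ℂ))).re) (Icc x y) := by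
    apply monotoneOn_of_deriv_nonneg (convex_Icc _ _)
    · intro t ht
      exact (H.hasDerivAt_neg (hx0.trans_le ht.1) (ht.2.trans_lt hy1)).continuousAt.continuousWithinAt
    · intro t ht
      rw [interior_Icc] at ht
      exact (H.hasDerivAt_neg (hx0.trans ht.1) (ht.2.trans hy1)).differentiableAt.differentiableWithinAt
    · intro t ht
      rw [interior_Icc] at ht
      rw [(H.hasDerivAt_neg (hx0.trans ht.1) (ht.2.trans hy1)).deriv]
      apply div_nonneg _ (hx0.trans ht.1).le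
      apply (H.pos _ _).le
      rw [mem_ball_zero_iff, norm_neg, norm_real, Real.norm_eq_abs, abs_of_pos (hx0.trans ht.1)]
      exact ht.2.trans hy1
  exact hmon (left_mem_Icc.2 hxy) (right_mem_Icc.2 hxy) hxy

end Pool.Agent.Lib_helper46.Schild
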