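import Pool.Agent.Lib_helper46.Schild.Ratio

set_option autoImplicit false

open Complex Metric Set

namespace Pool.Agent.Lib_helper46.Schild

/-- The quadratic `1 - 2 c z + z^2`. -/
noncomputable def qd (c : ℝ) (z : ℂ) : ℂ := 1 - 2 * c * z + z ^ 2

lemma normSq_lt_one {z : ℂ} (hz : z ∈ ball (0:ℂ) 1) : z.re ^ 2 + z.im ^ 2 < 1 := by
  rw [mem_ball_zero_iff] at hz
  have h1 : ‖z‖ ^ 2 < 1 := by
    have := norm_nonneg z
    nlinarith
  rw [← normSq_eq_norm_sq, normSq_apply] at h1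
  nlinarith

lemma qd_re (c : ℝ) (z : ℂ) : (qd c z).re = 1 - 2 * c * z.re + (z.re ^ 2 - z.im ^ 2) := by
  simp [qd, pow_two]

lemma qd_im (c : ℝ) (z : ℂ) : (qd c z).im = 2 * z.im * (z.re - c) := by
  simp [qd, pow_two]
  ring

lemma quad_pos {c x : ℝ} (hc1 : -1 ≤ c) (hc2 : c ≤ 1) (hx1 : -1 < x) (hx2 : x < 1) :
    0 < 1 - 2 * c * x + x ^ 2 := by
  have h1 : 0 < (1 - x) ^ 2 := by
    have : 0 < 1 - x := by linarith
    positivity
  have h2 : 0 < (1 + x) ^ 2 := by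
    have : 0 < 1 + x := by linarith
    positivity
  rcases le_total 0 c with h | h
  · nlinarith [mul_pos (by linarith : (0:ℝ) < 1 + c) h1, mul_nonneg (sub_nonneg.2 hc2) h2.le]
  · nlinarith [mul_pos (by linarith : (0:ℝ) < 1 - c) h2,
      mul_nonneg (by linarith : (0:ℝ) ≤ 1 + c) h1.le]

lemma qd_mem {c : ℝ} (hc : |c| ≤ 1) {z : ℂ} (hz : z ∈ ball (0:ℂ) 1) : qd c z ∈ slitPlane := by
  have h1 := normSq_lt_one hz
  obtain ⟨hc1, hc2⟩ := abs_le.1 hc
  rw [mem_slitPlane_iff]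
  by_cases him : (qd c z).im = 0
  · left
    rw [qd_im] at him
    rw [qd_re]
    have h2 : z.im = 0 ∨ z.re = c := by
      rcases mul_eq_zero.1 him with h3 | h3
      · left; linarith
      · right; linarith
    rcases h2 with h2 | h2
    · rw [h2]
      have h3 : z.re ^ 2 < 1 := by nlinarith
      have h4 : -1 < z.re ∧ z.re < 1 := by constructor <;> nlinarith
      have h5 := quad_pos hc1 hc2 h4.1 h4.2
      linarith
    · rw [h2] at h1 ⊢
      nlinarith
  · right; exact him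

lemma qd_ne {c : ℝ} (hc : |c| ≤ 1) {z : ℂ} (hz : z ∈ ball (0:ℂ) 1) : qd c z ≠ 0 :=
  slitPlane_ne_zero (qd_mem hc hz)

lemma qd_hasDerivAt (c : ℝ) (z : ℂ) : HasDerivAt (qd c) (2 * (z - c)) z := by
  unfold qd
  have h1 := ((hasDerivAt_const z (1:ℂ)).sub ((hasDerivAt_id z).const_mul (2 * (c:ℂ)))).add
    ((hasDerivAt_id z).pow 2)
  refine h1.congr_deriv ?_
  simp
  ring

/-- building block `(1 - z^2)/(1 - 2 c z + z^2)` -/
noncomputable def pb (c : ℝ) (z : ℂ) : ℂ := (1 - z ^ 2) / qd c z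

lemma pb_eq {c : ℝ} (hc : |c| ≤ 1) {z : ℂ} (hz : z ∈ ball (0:ℂ) 1) :
    pb c z = 1 - z * (2 * (z - c) / qd c z) := by
  have := qd_ne hc hz
  unfold pb
  field_simp
  unfold qd
  ring

lemma pb_re_pos {c : ℝ} (hc : |c| ≤ 1) {z : ℂ} (hz : z ∈ ball (0:ℂ) 1) : 0 < (pb c z).re := by
  have h1 := normSq_lt_one hz
  have hne := qd_ne hc hz
  obtain ⟨hc1, hc2⟩ := abs_le.1 hc
  unfold pb
  rw [div_re, ← add_div]
  apply div_pos _ (normSq_pos.2 hne)
  rw [qd_re, qd_im]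
  simp only [sub_re, one_re, sub_im, one_im, pow_two, mul_re, mul_im]
  set x := z.re
  set y := z.im
  have h3 : 0 < 1 + (x * x + y * y) - 2 * c * x := by
    have hx1 : x ^ 2 < 1 := by nlinarith [sq_nonneg y]
    have h4 : -1 < x ∧ x < 1 := by constructor <;> nlinarith
    have h5 := quad_pos hc1 hc2 h4.1 h4.2
    nlinarith [sq_nonneg y]
  have h5 : 0 < 1 - (x * x + y * y) := by nlinarith
  have h6 := mul_pos h5 h3
  nlinarith [h6]

/-- building block `(1 - z)/(1 + z)` -/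
noncomputable def pc (z : ℂ) : ℂ := (1 - z) / (1 + z)

lemma one_add_mem {z : ℂ} (hz : z ∈ ball (0:ℂ) 1) : 1 + z ∈ slitPlane := by
  have h1 := normSq_lt_one hz
  left
  simp only [add_re, one_re]
  nlinarith [sq_nonneg z.im]

lemma one_add_ne {z : ℂ} (hz : z ∈ ball (0:ℂ) 1) : 1 + z ≠ 0 := slitPlane_ne_zero (one_add_mem hz)

lemma pc_re_pos {z : ℂ} (hz : z ∈ ball (0:ℂ) 1) : 0 < (pc z).re := by
  have h1 := normSq_lt_one hz
  have hne := one_add_ne hz
  unfold pc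
  rw [div_re, ← add_div]
  apply div_pos _ (normSq_pos.2 hne)
  simp only [sub_re, one_re, sub_im, one_im, add_re, add_im]
  nlinarith

/-- The exponent of the example. -/
noncomputable def hA (z : ℂ) : ℂ :=
  -((4/5) * log (qd (79/200) z) + (2/25) * log (qd (-47/50) z) + (2/25) * log (qd (-151/200) z)
    + (2/25) * log (1 + z))

lemma c1 : |(79/200 : ℝ)| ≤ 1 := by rw [abs_le]; norm_num
lemma c2 : |(-47/50 : ℝ)| ≤ 1 := by rw [abs_le]; norm_num
lemma c3 : |(-151/200 : ℝ)| ≤ 1 := by rw [abs_le]; norm_num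

/-- explicit derivative -/
noncomputable def hA' (z : ℂ) : ℂ :=
  -((4/5) * (2 * (z - (79/200 : ℝ)) / qd (79/200) z)
    + (2/25) * (2 * (z - (-47/50 : ℝ)) / qd (-47/50) z)
    + (2/25) * (2 * (z - (-151/200 : ℝ)) / qd (-151/200) z)
    + (2/25) * (1 / (1 + z)))

lemma hA_hasDerivAt {z : ℂ} (hz : z ∈ ball (0:ℂ) 1) : HasDerivAt hA (hA' z) z := by
  have e1 := ((qd_hasDerivAt (79/200) z).clog (qd_mem c1 hz)).const_mul (4/5 : ℂ)
  have e2 := ((qd_hasDerivAt (-47/50) z).clog (qd_mem c2 hz)).const_mul (2/25 : ℂ)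
  have e3 := ((qd_hasDerivAt (-151/200) z).clog (qd_mem c3 hz)).const_mul (2/25 : ℂ)
  have e4 := (((hasDerivAt_id z).const_add 1).clog (one_add_mem hz)).const_mul (2/25 : ℂ)
  exact (((e1.add e2).add e3).add e4).neg

/-- explicit `z f'/f`. -/
noncomputable def pA (z : ℂ) : ℂ :=
  (4/5) * pb (79/200) z + (2/25) * pb (-47/50) z + (2/25) * pb (-151/200) z + (1/25) * pc z

lemma ph_hA {z : ℂ} (hz : z ∈ ball (0:ℂ) 1) : ph hA z = pA z := by
  unfold ph
  rw [(hA_hasDerivAt hz).deriv]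
  unfold pA hA'
  rw [pb_eq c1 hz, pb_eq c2 hz, pb_eq c3 hz]
  have : pc z = 1 - 2 * z * (1 / (1 + z)) := by
    have := one_add_ne hz
    unfold pc
    field_simp
    ring
  rw [this]
  ring

lemma good_hA : Good hA where
  diff := fun z hz => (hA_hasDerivAt hz).differentiableAt.differentiableWithinAt
  pos := by
    intro z hz
    rw [ph_hA hz]
    have e1 := pb_re_pos c1 hz
    have e2 := pb_re_pos c2 hz
    have e3 := pb_re_pos c3 hz
    have e4 := pc_re_pos hz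
    unfold pA
    have h1 : ((4/5 : ℂ)) = ((4/5 : ℝ) : ℂ) := by push_cast; rfl
    have h2 : ((2/25 : ℂ)) = ((2/25 : ℝ) : ℂ) := by push_cast; rfl
    have h3 : ((1/25 : ℂ)) = ((1/25 : ℝ) : ℂ) := by push_cast; rfl
    rw [h1, h2, h3]
    simp only [add_re, re_ofReal_mul]
    positivity

lemma qd_conj (c : ℝ) (z : ℂ) : qd c ((starRingEnd ℂ) z) = (starRingEnd ℂ) (qd c z) := by
  simp [qd, map_ofNat]

lemma realSym_hA : RealSym hA := by
  intro z hz
  have key : ∀ w ∈ slitPlane, log ((starRingEnd ℂ) w) = (starRingEnd ℂ) (log w) := by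
    intro w hw
    apply log_conj
    exact (mem_slitPlane_iff_arg.1 hw).1
  unfold hA
  have h1 : (starRingEnd ℂ) (4/5 : ℂ) = 4/5 := by simp [map_ofNat]
  have h2 : (starRingEnd ℂ) (2/25 : ℂ) = 2/25 := by simp [map_ofNat]
  simp only [qd_conj, map_neg, map_add, map_mul, h1, h2]
  rw [key _ (qd_mem c1 hz), key _ (qd_mem c2 hz), key _ (qd_mem c3 hz)]
  have h3 : 1 + (starRingEnd ℂ) z = (starRingEnd ℂ) (1 + z) := by simp
  rw [h3, key _ (one_add_mem hz)]

lemma pb_hasDerivAt {c : ℝ} (hc : |c| ≤ 1) {z : ℂ} (hz : z ∈ ball (0:ℂ) 1) :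
    HasDerivAt (pb c) ((2 * c - 4 * z + 2 * c * z ^ 2) / qd c z ^ 2) z := by
  have hne := qd_ne hc hz
  have h1 : HasDerivAt (fun z : ℂ => 1 - z ^ 2) (-(2 * z)) z := by
    have := ((hasDerivAt_id z).pow 2).const_sub 1
    refine this.congr_deriv ?_
    simp
  have h2 := h1.div (qd_hasDerivAt c z) hne
  refine h2.congr_deriv ?_
  congr 1
  unfold qd
  ring

lemma pc_hasDerivAt {z : ℂ} (hz : z ∈ ball (0:ℂ) 1) :
    HasDerivAt pc (-2 / (1 + z) ^ 2) z := by
  have hne := one_add_ne hz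
  have h2 := ((hasDerivAt_id z).const_sub 1).div ((hasDerivAt_id z).const_add 1) hne
  refine h2.congr_deriv ?_
  simp only [id]
  congr 1
  ring

/-- explicit derivative of `pA` -/
noncomputable def pA' (z : ℂ) : ℂ :=
  (4/5) * ((2 * (79/200 : ℝ) - 4 * z + 2 * (79/200 : ℝ) * z ^ 2) / qd (79/200) z ^ 2)
  + (2/25) * ((2 * (-47/50 : ℝ) - 4 * z + 2 * (-47/50 : ℝ) * z ^ 2) / qd (-47/50) z ^ 2)
  + (2/25) * ((2 * (-151/200 : ℝ) - 4 * z + 2 * (-151/200 : ℝ) * z ^ 2) / qd (-151/200) z ^ 2)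
  + (1/25) * (-2 / (1 + z) ^ 2)

lemma deriv_ph_hA {z : ℂ} (hz : z ∈ ball (0:ℂ) 1) : deriv (ph hA) z = pA' z := by
  have h1 : ph hA =ᶠ[nhds z] pA := by
    filter_upwards [isOpen_ball.mem_nhds hz] with w hw
    exact ph_hA hw
  rw [h1.deriv_eq]
  have e1 := (pb_hasDerivAt c1 hz).const_mul (4/5 : ℂ)
  have e2 := (pb_hasDerivAt c2 hz).const_mul (2/25 : ℂ)
  have e3 := (pb_hasDerivAt c3 hz).const_mul (2/25 : ℂ)
  have e4 := (pc_hasDerivAt hz).const_mul (1/25 : ℂ)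
  exact (((e1.add e2).add e3).add e4).deriv

lemma mem49 : ((49/100 : ℝ) : ℂ) ∈ ball (0:ℂ) 1 := by
  rw [mem_ball_zero_iff, norm_real, Real.norm_eq_abs, abs_of_pos (by norm_num)]
  norm_num

lemma kap_hA : (kap hA ((49/100 : ℝ) : ℂ)).re < 0 := by
  unfold kap
  rw [deriv_ph_hA mem49, ph_hA mem49]
  have hp : pA ((49/100 : ℝ) : ℂ) =
      (((4/5) * ((1 - (49/100) ^ 2) / (1 - 2 * (79/200) * (49/100) + (49/100) ^ 2))
      + (2/25) * ((1 - (49/100) ^ 2) / (1 - 2 * (-47/50) * (49/100) + (49/100) ^ 2))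
      + (2/25) * ((1 - (49/100) ^ 2) / (1 - 2 * (-151/200) * (49/100) + (49/100) ^ 2))
      + (1/25) * ((1 - 49/100) / (1 + 49/100)) : ℝ) : ℂ) := by
    unfold pA pb pc qd
    push_cast
    ring
  have hp' : pA' ((49/100 : ℝ) : ℂ) =
      (((4/5) * ((2 * (79/200) - 4 * (49/100) + 2 * (79/200) * (49/100) ^ 2)
          / (1 - 2 * (79/200) * (49/100) + (49/100) ^ 2) ^ 2)
      + (2/25) * ((2 * (-47/50) - 4 * (49/100) + 2 * (-47/50) * (49/100) ^ 2)
          / (1 - 2 * (-47/50) * (49/100) + (49/100) ^ 2) ^ 2)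
      + (2/25) * ((2 * (-151/200) - 4 * (49/100) + 2 * (-151/200) * (49/100) ^ 2)
          / (1 - 2 * (-151/200) * (49/100) + (49/100) ^ 2) ^ 2)
      + (1/25) * (-2 / (1 + 49/100) ^ 2) : ℝ) : ℂ) := by
    unfold pA' qd
    push_cast
    ring
  rw [hp, hp', ← ofReal_mul, ← ofReal_div, ← ofReal_add, ofReal_re]
  norm_num

/-- The 25-th power of `z / f`. -/
noncomputable def PA (z : ℂ) : ℂ :=
  qd (79/200) z ^ 20 * qd (-47/50) z ^ 2 * qd (-151/200) z ^ 2 * (1 + z) ^ 2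

lemma exp_hA {z : ℂ} (hz : z ∈ ball (0:ℂ) 1) : exp (-hA z) ^ 25 = PA z := by
  have key : ∀ (w : ℂ) (n : ℕ), w ≠ 0 → exp (n * log w) = w ^ n := by
    intro w n hw
    rw [exp_nat_mul, exp_log hw]
  rw [← exp_nat_mul]
  have : ((25 : ℕ) : ℂ) * -hA z = ((20 : ℕ) : ℂ) * log (qd (79/200) z)
      + ((2 : ℕ) : ℂ) * log (qd (-47/50) z)
      + ((2 : ℕ) : ℂ) * log (qd (-151/200) z) + ((2 : ℕ) : ℂ) * log (1 + z) := by
    unfold hA
    push_cast
    ring
  rw [this, exp_add, exp_add, exp_add, key _ _ (qd_ne c1 hz), key _ _ (qd_ne c2 hz),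
    key _ _ (qd_ne c3 hz), key _ _ (one_add_ne hz)]
  rfl

lemma normSq_eq_one {z : ℂ} (hz : ‖z‖ = 1) : z.re ^ 2 + z.im ^ 2 = 1 := by
  have h1 : ‖z‖ ^ 2 = 1 := by rw [hz]; norm_num
  rw [← normSq_eq_norm_sq, normSq_apply] at h1
  nlinarith

lemma norm_qd_circ (c : ℝ) {z : ℂ} (hz : ‖z‖ = 1) : ‖qd c z‖ = |2 * z.re - 2 * c| := by
  have h1 := normSq_eq_one hz
  rw [← sq_eq_sq₀ (norm_nonneg _) (abs_nonneg _), ← normSq_eq_norm_sq, normSq_apply, sq_abs,
    qd_re, qd_im]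
  have h2 : z.im ^ 2 = 1 - z.re ^ 2 := by linarith
  have h3 : (2 * z.im * (z.re - c)) * (2 * z.im * (z.re - c)) = 4 * (z.im ^ 2) * (z.re - c) ^ 2 := by
    ring
  rw [h3, h2]
  ring

lemma norm_one_add_sq {z : ℂ} (hz : ‖z‖ = 1) : ‖1 + z‖ ^ 2 = 2 + 2 * z.re := by
  have h1 := normSq_eq_one hz
  rw [← normSq_eq_norm_sq, normSq_apply]
  simp only [add_re, one_re, add_im, one_im, zero_add]
  nlinarith

/-- Weighted arithmetic-geometric mean inequality in exponential form. -/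
lemma amgm {a b c d A B C D E : ℝ} (ha : 0 ≤ a) (hb : 0 ≤ b) (hc : 0 ≤ c) (hd : 0 ≤ d)
    (hA : 0 < A) (hB : 0 < B) (hC : 0 < C) (hD : 0 < D)
    (hE : 20 * (a / A - 1) + 2 * (b / B - 1) + 2 * (c / C - 1) + (d / D - 1) ≤ E) (hE1 : E < 1) :
    a ^ 20 * b ^ 2 * c ^ 2 * d ≤ A ^ 20 * B ^ 2 * C ^ 2 * D / (1 - E) := by
  have key : ∀ (a A : ℝ), 0 < A → a ≤ A * Real.exp (a / A - 1) := by
    intro a A hA
    have h1 := Real.add_one_le_exp (a / A - 1)
    have h2 : a = A * (a / A - 1 + 1) := by field_simp; ring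
    calc a = A * (a / A - 1 + 1) := h2
      _ ≤ A * Real.exp (a / A - 1) := by gcongr
  have h1 := pow_le_pow_left₀ ha (key a A hA) 20
  have h2 := pow_le_pow_left₀ hb (key b B hB) 2
  have h3 := pow_le_pow_left₀ hc (key c C hC) 2
  have h4 := key d D hD
  have h5 : Real.exp E ≤ 1 / (1 - E) := by
    have h6 := Real.add_one_le_exp (-E)
    have h7 : 0 < 1 - E := by linarith
    rw [le_div_iff₀ h7]
    have h8 : Real.exp E * Real.exp (-E) = 1 := by rw [← Real.exp_add]; simp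
    have h9 := Real.exp_pos E
    nlinarith
  calc a ^ 20 * b ^ 2 * c ^ 2 * d
      ≤ (A * Real.exp (a / A - 1)) ^ 20 * (B * Real.exp (b / B - 1)) ^ 2
        * (C * Real.exp (c / C - 1)) ^ 2 * (D * Real.exp (d / D - 1)) := by
        gcongr
    _ = A ^ 20 * B ^ 2 * C ^ 2 * D * Real.exp (20 * (a / A - 1) + 2 * (b / B - 1)
        + 2 * (c / C - 1) + (d / D - 1)) := by
        have e20 : Real.exp (20 * (a / A - 1)) = Real.exp (a / A - 1) ^ 20 := by
          rw [← Real.exp_nat_mul]; norm_num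
        have e2 : ∀ t : ℝ, Real.exp (2 * t) = Real.exp t ^ 2 := by
          intro t; rw [← Real.exp_nat_mul]; norm_num
        rw [Real.exp_add, Real.exp_add, Real.exp_add, e20, e2, e2]
        ring
    _ ≤ A ^ 20 * B ^ 2 * C ^ 2 * D * Real.exp E := by
        gcongr
    _ ≤ A ^ 20 * B ^ 2 * C ^ 2 * D * (1 / (1 - E)) := by
        gcongr
    _ = A ^ 20 * B ^ 2 * C ^ 2 * D / (1 - E) := by ring

lemma poly_bound {x : ℝ} (h1 : -1 ≤ x) (h2 : x ≤ 1) :
    |2 * x - 2 * (79/200)| ^ 20 * |2 * x - 2 * (-47/50)| ^ 2 * |2 * x - 2 * (-151/200)| ^ 2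
      * (2 + 2 * x) ≤ (1.5182 : ℝ) ^ 25 := by
  have hd : 0 ≤ 2 + 2 * x := by linarith
  rcases le_total x (79/200) with hx1 | hx1
  · rcases le_total x (-151/200) with hx2 | hx2
    · rcases le_total x (-47/50) with hx3 | hx3
      · -- `[-1, -0.94]`, tangent point `-0.98517`
        refine (amgm (A := 2 * (0.98517 + 79/200)) (B := 2 * (0.98517 - 47/50))
          (C := 2 * (0.98517 - 151/200)) (D := 2 - 2 * 0.98517) (E := 0.0005)
          (abs_nonneg _) (abs_nonneg _) (abs_nonneg _) hd (by norm_num) (by norm_num)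
          (by norm_num) (by norm_num) ?_ (by norm_num)).trans (by norm_num)
        rw [abs_of_nonpos (by linarith), abs_of_nonpos (by linarith), abs_of_nonpos (by linarith)]
        norm_num
        linarith
      · refine (amgm (A := 2 * (0.86497 + 79/200)) (B := 2 * (47/50 - 0.86497))
          (C := 2 * (0.86497 - 151/200)) (D := 2 - 2 * 0.86497) (E := 0.0005)
          (abs_nonneg _) (abs_nonneg _) (abs_nonneg _) hd (by norm_num) (by norm_num)
          (by norm_num) (by norm_num) ?_ (by norm_num)).trans (by norm_num)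
        rw [abs_of_nonpos (by linarith), abs_of_nonneg (by linarith), abs_of_nonpos (by linarith)]
        norm_num
        linarith
    · refine (amgm (A := 2 * (0.59026 + 79/200)) (B := 2 * (47/50 - 0.59026))
          (C := 2 * (151/200 - 0.59026)) (D := 2 - 2 * 0.59026) (E := 0.0005)
          (abs_nonneg _) (abs_nonneg _) (abs_nonneg _) hd (by norm_num) (by norm_num)
          (by norm_num) (by norm_num) ?_ (by norm_num)).trans (by norm_num)
      rw [abs_of_nonpos (by linarith), abs_of_nonneg (by linarith), abs_of_nonneg (by linarith)]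
      norm_num
      linarith
  · refine (amgm (A := 2 * (1 - 79/200)) (B := 2 * (47/50 + 1))
          (C := 2 * (151/200 + 1)) (D := 4) (E := 0)
          (abs_nonneg _) (abs_nonneg _) (abs_nonneg _) hd (by norm_num) (by norm_num)
          (by norm_num) (by norm_num) ?_ (by norm_num)).trans (by norm_num)
    rw [abs_of_nonneg (by linarith), abs_of_nonneg (by linarith), abs_of_nonneg (by linarith)]
    norm_num
    linarith

lemma PA_bound {z : ℂ} (hz : z ∈ ball (0:ℂ) 1) : ‖PA z‖ ≤ (1.5182 : ℝ) ^ 25 := by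
  apply Complex.norm_le_of_forall_mem_frontier_norm_le (isBounded_ball (x := (0:ℂ)) (r := 1))
    (f := PA) _ _ (subset_closure hz)
  · apply DifferentiableOn.diffContOnCl
    unfold PA qd
    fun_prop
  · intro w hw
    rw [frontier_ball _ one_ne_zero, mem_sphere_zero_iff_norm] at hw
    unfold PA
    rw [norm_mul, norm_mul, norm_mul, norm_pow, norm_pow, norm_pow, norm_pow, norm_one_add_sq hw,
      norm_qd_circ _ hw, norm_qd_circ _ hw, norm_qd_circ _ hw]
    have h1 := normSq_eq_one hw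
    apply poly_bound <;> nlinarith [sq_nonneg w.im]

lemma exp_hA_bound {z : ℂ} (hz : z ∈ ball (0:ℂ) 1) : ‖exp (-hA z)‖ ≤ 1.5182 := by
  have h1 := PA_bound hz
  rw [← exp_hA hz, norm_pow] at h1
  exact le_of_pow_le_pow_left₀ (by norm_num) (by norm_num) h1

lemma hA_bound : ∀ z ∈ ball (0:ℂ) 1, ‖z‖ ≤ 1.5182 * ‖fh hA z‖ := by
  intro z hz
  have h1 := exp_hA_bound hz
  have h2 : z = exp (-hA z) * fh hA z := by
    unfold fh
    rw [exp_neg]
    have := exp_ne_zero (hA z)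
    field_simp
  calc ‖z‖ = ‖exp (-hA z)‖ * ‖fh hA z‖ := by rw [← norm_mul, ← h2]
    _ ≤ 1.5182 * ‖fh hA z‖ := by gcongr

lemma fA_value : ‖fh hA (-((49/100 : ℝ) : ℂ))‖ * 1.5182 ≤ 0.616 := by
  have hmem : -((49/100 : ℝ) : ℂ) ∈ ball (0:ℂ) 1 := by
    rw [mem_ball_zero_iff, norm_neg]
    exact mem_ball_zero_iff.1 mem49
  have h1 := exp_hA hmem
  have h2 : PA (-((49/100 : ℝ) : ℂ)) =
      (((1 + 2 * (79/200) * (49/100) + (49/100) ^ 2) ^ 20
        * (1 + 2 * (-47/50) * (49/100) + (49/100) ^ 2) ^ 2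
        * (1 + 2 * (-151/200) * (49/100) + (49/100) ^ 2) ^ 2 * (1 - 49/100) ^ 2 : ℝ) : ℂ) := by
    unfold PA qd
    push_cast
    ring
  have h3 : ‖fh hA (-((49/100 : ℝ) : ℂ))‖ * ‖exp (-hA (-((49/100 : ℝ) : ℂ)))‖ = 49/100 := by
    rw [← norm_mul]
    unfold fh
    rw [mul_assoc, ← exp_add, add_neg_cancel, exp_zero, mul_one, norm_neg, norm_real,
      Real.norm_eq_abs, abs_of_pos (by norm_num)]
  have h4 := congrArg norm h1
  rw [norm_pow, h2, norm_real, Real.norm_eq_abs, abs_of_pos (by norm_num)] at h4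
  set X := ‖fh hA (-((49/100 : ℝ) : ℂ))‖ with hX
  set Y := ‖exp (-hA (-((49/100 : ℝ) : ℂ)))‖ with hY
  have h5 : (X * 1.5182) ^ 25 ≤ (0.616 : ℝ) ^ 25 := by
    have h6 : X ^ 25 * Y ^ 25 = (49/100) ^ 25 := by rw [← mul_pow, h3]
    rw [h4] at h6
    have h7 : X ^ 25 = (49/100) ^ 25 / ((1 + 2 * (79/200) * (49/100) + (49/100) ^ 2) ^ 20
        * (1 + 2 * (-47/50) * (49/100) + (49/100) ^ 2) ^ 2
        * (1 + 2 * (-151/200) * (49/100) + (49/100) ^ 2) ^ 2 * (1 - 49/100) ^ 2) := by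
      rw [eq_div_iff (by norm_num)]
      exact h6
    rw [mul_pow, h7]
    norm_num
  exact le_of_pow_le_pow_left₀ (by norm_num) (by norm_num) h5

theorem rho_hA : rho (fh hA) ≤ 0.616 :=
  (good_hA.rho_le realSym_hA (x0 := 49/100) (M := 1.5182) (by norm_num) (by norm_num) kap_hA
    (by norm_num) hA_bound).trans fA_value

end Pool.Agent.Lib_helper46.Schild
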