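import Pool.Agent.Lib_helper46.Schild.Suffridge
import Pool.Agent.Lib_helper46.Schild.Cert

set_option autoImplicit false

open Complex Metric Set

namespace Pool.Agent.Lib_helper46.Schild

/-- Algebraic core of the convexity criterion. -/
lemma alg_kap {p q : ℂ} {β : ℝ} (hp : 0 < p.re)
    (hP : p ^ 2 = (1 - β : ℝ) + (β : ℝ) * q ^ 2)
    (hG : 0 ≤ Gf (q.re ^ 2 + q.im ^ 2) β (q.re ^ 2)) :
    0 ≤ (p + q / 2 * (1 - 1 / p ^ 2)).re := by
  set x := q.re with hx
  set y := q.im with hy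
  set u := p.re with hu
  set v := p.im with hv
  set N := x ^ 2 + y ^ 2 with hN
  have hre := congrArg Complex.re hP
  have him := congrArg Complex.im hP
  rw [pow_two, pow_two, mul_re, add_re, ofReal_re, re_ofReal_mul, mul_re, ← hx, ← hy, ← hu,
    ← hv] at hre
  rw [pow_two, pow_two, mul_im, add_im, ofReal_im, im_ofReal_mul, mul_im, ← hx, ← hy, ← hu,
    ← hv] at him
  set D := 1 - β - β * N with hD
  set U := 1 - β + β * N with hU
  set τ := D ^ 2 + 4 * β * (1 - β) * x ^ 2 with hτ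
  set T := u ^ 2 + v ^ 2 with hT
  have hT0 : 0 < T := by positivity
  have hreP : u * u - v * v = D + 2 * β * x ^ 2 := by
    rw [hre, hD, hN]; ring
  have hTτ : T ^ 2 = τ := by
    have : T ^ 2 = (u * u - v * v) ^ 2 + (u * v + v * u) ^ 2 := by rw [hT]; ring
    rw [this, hre, him, hτ, hD, hN]
    ring
  have hτ0 : 0 < τ := by rw [← hTτ]; positivity
  have h2u : 2 * u ^ 2 = T + (D + 2 * β * x ^ 2) := by rw [← hreP, hT]; ring
  have hp0 : p ≠ 0 := by
    intro h0
    rw [h0] at hu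
    simp at hu
    linarith
  have hnP : normSq (p ^ 2) = τ := by
    rw [map_pow, normSq_apply, ← hTτ, hT]
    ring
  have hRe : (p + q / 2 * (1 - 1 / p ^ 2)).re = u + x / 2 * (1 - U / τ) := by
    have e1 : p + q / 2 * (1 - 1 / p ^ 2) = p + ((1/2 : ℝ) : ℂ) * (q - q / p ^ 2) := by
      push_cast; ring
    rw [e1, add_re, re_ofReal_mul, sub_re, div_re, hnP]
    have e2 : (p ^ 2).re = (1 - β) + β * (x * x - y * y) := by
      rw [hP, add_re, ofReal_re, re_ofReal_mul, pow_two, mul_re]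
    have e3 : (p ^ 2).im = β * (x * y + y * x) := by
      rw [hP, add_im, ofReal_im, im_ofReal_mul, pow_two, mul_im, zero_add]
    rw [e2, e3, ← hx, ← hy, ← hu, hU, hN]
    field_simp
    ring
  rw [hRe]
  by_contra hcon
  push Not at hcon
  have h1 : 2 * u * τ < x * (U - τ) := by
    have e : (u + x / 2 * (1 - U / τ)) * (2 * τ) = 2 * u * τ - x * (U - τ) := by
      field_simp
      ring
    have := mul_neg_of_neg_of_pos hcon (show 0 < 2 * τ by positivity)
    rw [e] at this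
    linarith
  have hl : 0 < 2 * u * τ := by positivity
  have h2 : (2 * u * τ) ^ 2 < (x * (U - τ)) ^ 2 := by
    apply pow_lt_pow_left₀ h1 hl.le (by norm_num)
  have hVpos : 0 < U ^ 2 + τ := by positivity
  have h3 : (2 * u * τ) ^ 2 * (U ^ 2 + τ) < (x * (U - τ)) ^ 2 * (U ^ 2 + τ) :=
    mul_lt_mul_of_pos_right h2 hVpos
  have h4 : (2 * u * τ) ^ 2 * (U ^ 2 + τ)
      = 2 * τ ^ 2 * (T * (U ^ 2 + τ) + (D + 2 * β * x ^ 2) * (U ^ 2 + τ)) := by
    have : (2 * u * τ) ^ 2 * (U ^ 2 + τ) = 2 * τ ^ 2 * ((2 * u ^ 2) * (U ^ 2 + τ)) := by ring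
    rw [this, h2u]; ring
  have h5 : 2 * τ * U ≤ T * (U ^ 2 + τ) := by
    have : T * (U ^ 2 + τ) - 2 * τ * U = T * (U - T) ^ 2 := by
      rw [← hTτ]; ring
    have h6 : 0 ≤ T * (U - T) ^ 2 := by positivity
    linarith
  have h7 : Gf N β (x ^ 2) = 2 * τ ^ 2 * (2 * τ * U + (D + 2 * β * x ^ 2) * (U ^ 2 + τ))
      - x ^ 2 * (U - τ) ^ 2 * (U ^ 2 + τ) := by
    unfold Gf
    rfl
  rw [h7] at hG
  have h8 : 2 * τ ^ 2 * (2 * τ * U + (D + 2 * β * x ^ 2) * (U ^ 2 + τ))
      ≤ 2 * τ ^ 2 * (T * (U ^ 2 + τ) + (D + 2 * β * x ^ 2) * (U ^ 2 + τ)) := by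
    have : 0 ≤ 2 * τ ^ 2 := by positivity
    apply mul_le_mul_of_nonneg_left _ this
    linarith
  have h9 : (x * (U - τ)) ^ 2 * (U ^ 2 + τ) = x ^ 2 * (U - τ) ^ 2 * (U ^ 2 + τ) := by ring
  rw [h4, h9] at h3
  linarith

/-- `N` and `Re q` on the circle. -/
lemma circle_q {s : ℝ} (hs0 : 0 < s) (hs1 : s < 1) {z : ℂ} (hz : ‖z‖ = (1 - s) / (1 + s)) :
    let q := (1 + z) / (1 - z)
    (1 + s ^ 2) * q.re = (q.re ^ 2 + q.im ^ 2 + 1) * s ∧
      s ^ 2 ≤ q.re ^ 2 + q.im ^ 2 ∧ s ^ 2 * (q.re ^ 2 + q.im ^ 2) ≤ 1 := by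
  intro q
  have hr1 : (1 - s) / (1 + s) < 1 := by
    rw [div_lt_one (by linarith)]; linarith
  have hzb : z ∈ ball (0:ℂ) 1 := by rw [mem_ball_zero_iff, hz]; exact hr1
  have h1z := one_sub_ne hzb
  have hqz : q * (1 - z) = 1 + z := by
    simp only [q]; field_simp
  have hqz2 : z * (q + 1) = q - 1 := by linear_combination -hqz
  have hn := congrArg normSq hqz2
  rw [map_mul, normSq_eq_norm_sq z, hz, normSq_apply, normSq_apply] at hn
  simp only [add_re, one_re, add_im, one_im, sub_re, sub_im, add_zero, sub_zero] at hn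
  set x := q.re
  set y := q.im
  have h1s : (1 + s) ≠ 0 := by linarith
  have h2 : (1 - s) ^ 2 * ((x + 1) * (x + 1) + y * y) = (1 + s) ^ 2 * ((x - 1) * (x - 1) + y * y) := by
    field_simp at hn
    linarith
  have h3 : (1 + s ^ 2) * x = (x ^ 2 + y ^ 2 + 1) * s := by nlinarith
  refine ⟨h3, ?_⟩
  set N := x ^ 2 + y ^ 2 with hN
  have h4 : ((N + 1) * s) ^ 2 ≤ (1 + s ^ 2) ^ 2 * N := by
    rw [← h3]
    have : 0 ≤ (1 + s ^ 2) ^ 2 * y ^ 2 := by positivity
    rw [hN]
    nlinarith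
  have h5 : (s ^ 2 * N - 1) * (N - s ^ 2) ≤ 0 := by nlinarith
  have hs2 : s ^ 2 < 1 := by nlinarith
  have hN0 : 0 ≤ N := by positivity
  have hs4 : s ^ 2 * s ^ 2 < 1 := by nlinarith [sq_nonneg s]
  constructor
  · by_contra hc
    push Not at hc
    have h6 : s ^ 2 * N - 1 < 0 := by
      have : s ^ 2 * N ≤ s ^ 2 * s ^ 2 := by
        apply mul_le_mul_of_nonneg_left hc.le (by positivity)
      linarith
    have := mul_pos_of_neg_of_neg h6 (by linarith : N - s ^ 2 < 0)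
    linarith
  · by_contra hc
    push Not at hc
    have h6 : 0 < N - s ^ 2 := by
      by_contra h7
      push Not at h7
      have : s ^ 2 * N ≤ s ^ 2 * s ^ 2 := by
        apply mul_le_mul_of_nonneg_left (by linarith) (by positivity)
      linarith
    have := mul_pos (by linarith : 0 < s ^ 2 * N - 1) h6
    linarith

namespace SData

variable {b : ℝ} {L M : ℂ → ℂ}

lemma p_sq {b : ℝ} {z : ℂ} (hz : z ∈ ball (0:ℂ) 1) :
    (Rb b z / (1 - z)) ^ 2 = (1 - b ^ 2 : ℝ) + (b ^ 2 : ℝ) * ((1 + z) / (1 - z)) ^ 2 := by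
  have h1z := one_sub_ne hz
  rw [div_pow, Rb_sq]
  unfold qd
  push_cast
  field_simp
  ring

lemma kap_eq (S : SData b L M) {z : ℂ} (hz : z ∈ ball (0:ℂ) 1) :
    kap (hS b L M) z = Rb b z / (1 - z)
      + ((1 + z) / (1 - z)) / 2 * (1 - 1 / (Rb b z / (1 - z)) ^ 2) := by
  have hR := Rb_hasDerivAt S.b0 S.b1 hz
  have hRne := Rb_ne S.b0 S.b1 hz
  have h1z := one_sub_ne hz
  have hd : HasDerivAt (fun z : ℂ => 1 - z) (-1) z := (hasDerivAt_id z).const_sub 1
  have h1 := hR.div hd h1z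
  have h2 : ph (hS b L M) =ᶠ[nhds z] (Rb b) / (fun z : ℂ => 1 - z) := by
    filter_upwards [isOpen_ball.mem_nhds hz] with w hw
    exact S.ph_eq hw
  unfold kap
  rw [h2.deriv_eq, h1.deriv, S.ph_eq hz]
  have hsq := Rb_sq (b := b) (z := z)
  unfold qd at hsq
  push_cast at hsq ⊢
  field_simp
  linear_combination (z - 1) * hsq


/-- `G ≥ 0` on the circle gives `Re κ ≥ 0`. -/
lemma kap_nonneg (S : SData b L M) {s : ℝ} (hs0 : 0 < s) (hs1 : s < 1)
    (hG : ∀ N X : ℝ, s ^ 2 ≤ N → s ^ 2 * N ≤ 1 → (1 + s ^ 2) ^ 2 * X = (N + 1) ^ 2 * s ^ 2 →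
      0 ≤ Gf N (b ^ 2) X) {z : ℂ} (hz : ‖z‖ = (1 - s) / (1 + s)) :
    0 ≤ (kap (hS b L M) z).re := by
  have hr1 : (1 - s) / (1 + s) < 1 := by
    rw [div_lt_one (by linarith)]; linarith
  have hzb : z ∈ ball (0:ℂ) 1 := by rw [mem_ball_zero_iff, hz]; exact hr1
  obtain ⟨h1, h2, h3⟩ := circle_q hs0 hs1 hz
  rw [S.kap_eq hzb]
  apply alg_kap (β := b ^ 2) (p_re_pos S.b0 S.b1 hzb) (p_sq hzb)
  apply hG _ _ h2 h3
  have : (1 + s ^ 2) ^ 2 * ((1 + z) / (1 - z)).re ^ 2
      = ((1 + s ^ 2) * ((1 + z) / (1 - z)).re) ^ 2 := by ring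
  rw [this, h1]
  ring

lemma q_im (z : ℂ) (hz : z ∈ ball (0:ℂ) 1) :
    ((1 + z) / (1 - z)).im = 2 * z.im / normSq (1 - z) := by
  have := normSq_pos.2 (one_sub_ne hz)
  rw [div_im]
  simp only [add_re, one_re, add_im, one_im, sub_re, sub_im]
  field_simp
  ring

lemma ph_im (S : SData b L M) {z : ℂ} (hz : z ∈ ball (0:ℂ) 1) :
    (ph (hS b L M) z).re * (ph (hS b L M) z).im
      = b ^ 2 * (((1 + z) / (1 - z)).re * ((1 + z) / (1 - z)).im) := by
  rw [S.ph_eq hz]
  have h1 := congrArg Complex.im (p_sq (b := b) hz)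
  rw [pow_two (Rb b z / (1 - z)), pow_two ((1 + z) / (1 - z)), mul_im, add_im, ofReal_im,
    im_ofReal_mul, mul_im] at h1
  linarith

lemma ph_im_nonneg (S : SData b L M) : ∀ z ∈ ball (0:ℂ) 1, 0 < z.im →
    0 ≤ (ph (hS b L M) z).im := by
  intro z hz hy
  have h1 := S.ph_im hz
  have h2 := S.good.pos z hz
  have h3 := q_re_pos hz
  have h4 : 0 < ((1 + z) / (1 - z)).im := by
    rw [q_im z hz]
    have := normSq_pos.2 (one_sub_ne hz)
    positivity
  have h5 : 0 ≤ (ph (hS b L M) z).re * (ph (hS b L M) z).im := by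
    rw [h1]; positivity
  exact (mul_nonneg_iff_of_pos_left h2).1 h5

lemma ph_im_nonpos (S : SData b L M) : ∀ z ∈ ball (0:ℂ) 1, z.im < 0 →
    (ph (hS b L M) z).im ≤ 0 := by
  intro z hz hy
  have h1 := S.ph_im hz
  have h2 := S.good.pos z hz
  have h3 := q_re_pos hz
  have h4 : ((1 + z) / (1 - z)).im < 0 := by
    rw [q_im z hz]
    have := normSq_pos.2 (one_sub_ne hz)
    apply div_neg_of_neg_of_pos _ this
    linarith
  have h5 : (ph (hS b L M) z).re * (ph (hS b L M) z).im ≤ 0 := by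
    rw [h1]
    apply mul_nonpos_of_nonneg_of_nonpos (by positivity)
    exact (mul_neg_of_pos_of_neg h3 h4).le
  by_contra hc
  push Not at hc
  have := mul_pos h2 hc
  linarith

/-- `p(-x)` squared on the negative axis. -/
lemma ph_neg_sq (S : SData b L M) {x : ℝ} (hx0 : 0 < x) (hx1 : x < 1) :
    (ph (hS b L M) (-(x:ℂ))).re ^ 2 ≤ 1 - 4 * b ^ 2 * x / (1 + x) ^ 2 := by
  have hz : -(x:ℂ) ∈ ball (0:ℂ) 1 := by
    rw [mem_ball_zero_iff, norm_neg, norm_real, Real.norm_eq_abs, abs_of_pos hx0]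
    exact hx1
  have h1 := S.ph_im hz
  have him : ((1 + -(x:ℂ)) / (1 - -(x:ℂ))).im = 0 := by
    rw [q_im _ hz]
    simp
  rw [him, mul_zero, mul_zero] at h1
  have h2 := S.good.pos _ hz
  have h3 : (ph (hS b L M) (-(x:ℂ))).im = 0 := by
    rcases mul_eq_zero.1 h1 with h | h
    · exact absurd h h2.ne'
    · exact h
  have h4 := congrArg Complex.re (p_sq (b := b) hz)
  rw [← S.ph_eq hz] at h4
  have h5 : ((1 + -(x:ℂ)) / (1 - -(x:ℂ))) = (((1 - x) / (1 + x) : ℝ) : ℂ) := by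
    push_cast; ring
  rw [h5, ← ofReal_pow, ← ofReal_mul, ← ofReal_add, ofReal_re, pow_two, mul_re, h3, mul_zero,
    sub_zero] at h4
  have h6 : (1 + x) ≠ 0 := by linarith
  have h7 : 1 - b ^ 2 + b ^ 2 * ((1 - x) / (1 + x)) ^ 2 = 1 - 4 * b ^ 2 * x / (1 + x) ^ 2 := by
    field_simp
    ring
  rw [← h7, ← h4, pow_two]

/-- The estimate of `|g|` on the negative radius beyond `-r`. -/
lemma neg_axis_bound (S : SData b L M) {s m lam : ℝ} (hs0 : 0 < s) (hs1 : s < 1) (hm : 0 < m)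
    (hlam : (m ^ 2 + 1) / 2 * (-Real.log ((1 - s) / (1 + s))) - b ^ 2 * s ≤ m * lam)
    (hlam0 : 0 ≤ lam) :
    ∀ x : ℝ, 0 < x → x < 1 → ‖fh (hS b L M) (-(x:ℂ))‖ ≤
      ‖fh (hS b L M) (-(((1 - s) / (1 + s) : ℝ) : ℂ))‖ * Real.exp lam := by
  intro x hx0 hx1
  have H := S.good
  set r := (1 - s) / (1 + s) with hr
  have hr0 : 0 < r := div_pos (by linarith) (by linarith)
  have hr1 : r < 1 := by
    rw [hr, div_lt_one (by linarith)]; linarith
  have hexp1 : 1 ≤ Real.exp lam := Real.one_le_exp hlam0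
  rcases le_total x r with hxr | hxr
  · have h1 := H.norm_neg_mono hx0 hxr hr1
    have h2 := norm_nonneg (fh (hS b L M) (-(r:ℂ)))
    nlinarith
  · set φ : ℝ → ℝ := fun x => Real.log x + (hS b L M (-(x:ℂ))).re with hφ
    set E : ℝ → ℝ := fun x => (m ^ 2 + 1) / (2 * m) * Real.log x + 2 * b ^ 2 / m * (1 + x)⁻¹ with hE
    have hderφ : ∀ t : ℝ, 0 < t → t < 1 → HasDerivAt φ ((ph (hS b L M) (-(t:ℂ))).re / t) t :=
      fun t h0 h1 => H.hasDerivAt_neg h0 h1
    have hderE : ∀ t : ℝ, 0 < t → HasDerivAt E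
        ((m ^ 2 + (1 - 4 * b ^ 2 * t / (1 + t) ^ 2)) / (2 * m * t)) t := by
      intro t ht
      have e1 := (Real.hasDerivAt_log ht.ne').const_mul ((m ^ 2 + 1) / (2 * m))
      have e2 := (((hasDerivAt_id t).const_add 1).inv
        (show (1 + id t) ≠ 0 by simp only [id]; positivity)).const_mul (2 * b ^ 2 / m)
      refine (e1.add e2).congr_deriv ?_
      simp only [id]
      have : (1 + t) ≠ 0 := by positivity
      field_simp
      ring
    have hmono : MonotoneOn (fun t => E t - φ t) (Icc r x) := by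
      apply monotoneOn_of_deriv_nonneg (convex_Icc _ _)
      · intro t ht
        have h0 := hr0.trans_le ht.1
        exact ((hderE t h0).sub (hderφ t h0 (ht.2.trans_lt hx1))).continuousAt.continuousWithinAt
      · intro t ht
        rw [interior_Icc] at ht
        have h0 := hr0.trans ht.1
        exact ((hderE t h0).sub (hderφ t h0 (ht.2.trans hx1))).differentiableAt.differentiableWithinAt
      · intro t ht
        rw [interior_Icc] at ht
        have h0 := hr0.trans ht.1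
        have ht1 := ht.2.trans hx1
        have e3 := ((hderE t h0).sub (hderφ t h0 ht1)).deriv
        have e4 : deriv (fun t => E t - φ t) t = (m ^ 2 + (1 - 4 * b ^ 2 * t / (1 + t) ^ 2)) / (2 * m * t)
            - (ph (hS b L M) (-(t:ℂ))).re / t := e3
        rw [e4]
        have h5 := S.ph_neg_sq h0 ht1
        set p := (ph (hS b L M) (-(t:ℂ))).re
        have h6 : (m ^ 2 + (1 - 4 * b ^ 2 * t / (1 + t) ^ 2)) / (2 * m * t) - p / t
            = ((m ^ 2 + (1 - 4 * b ^ 2 * t / (1 + t) ^ 2)) - 2 * m * p) / (2 * m * t) := by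
          field_simp
        rw [h6]
        apply div_nonneg _ (by positivity)
        nlinarith [sq_nonneg (m - p)]
    have h1 := hmono (left_mem_Icc.2 hxr) (right_mem_Icc.2 hxr) hxr
    simp only at h1
    have h2 : E x ≤ b ^ 2 / m := by
      have hmonoE : MonotoneOn E (Icc x 1) := by
        apply monotoneOn_of_deriv_nonneg (convex_Icc _ _)
        · intro t ht
          exact (hderE t (hx0.trans_le ht.1)).continuousAt.continuousWithinAt
        · intro t ht
          rw [interior_Icc] at ht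
          exact (hderE t (hx0.trans ht.1)).differentiableAt.differentiableWithinAt
        · intro t ht
          rw [interior_Icc] at ht
          have h0 := hx0.trans ht.1
          rw [(hderE t h0).deriv]
          apply div_nonneg _ (by positivity)
          have h5 := S.ph_neg_sq h0 ht.2
          have := sq_nonneg (ph (hS b L M) (-(t:ℂ))).re
          have := sq_nonneg m
          linarith
      have h3 := hmonoE (left_mem_Icc.2 hx1.le) (right_mem_Icc.2 hx1.le) hx1.le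
      have h4 : E 1 = b ^ 2 / m := by
        simp only [hE, Real.log_one]
        ring
      rwa [h4] at h3
    have h3 : b ^ 2 / m - E r ≤ lam := by
      have h1r : (1 + r)⁻¹ = (1 + s) / 2 := by
        rw [hr]
        have : (1 + s) ≠ 0 := by linarith
        field_simp
        ring
      have h4 : b ^ 2 / m - E r = ((m ^ 2 + 1) / 2 * (-Real.log r) - b ^ 2 * s) / m := by
        simp only [hE, h1r]
        field_simp
        ring
      rw [h4, div_le_iff₀ hm]
      linarith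
    have h4 : φ x ≤ φ r + lam := by linarith
    rw [norm_fh_neg hx0, norm_fh_neg hr0, ← Real.exp_add, Real.exp_le_exp]
    exact h4

/-- Lower bound for Schild's ratio of a member of the family. -/
theorem rho_ge (S : SData b L M) {s m lam : ℝ} (hs0 : 0 < s) (hs1 : s < 1) (hm : 0 < m)
    (hlam : (m ^ 2 + 1) / 2 * (-Real.log ((1 - s) / (1 + s))) - b ^ 2 * s ≤ m * lam)
    (hlam0 : 0 ≤ lam)
    (hG : ∀ N X : ℝ, s ^ 2 ≤ N → s ^ 2 * N ≤ 1 → (1 + s ^ 2) ^ 2 * X = (N + 1) ^ 2 * s ^ 2 →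
      0 ≤ Gf N (b ^ 2) X) :
    Real.exp (-lam) ≤ rho (fh (hS b L M)) := by
  set r := (1 - s) / (1 + s) with hr
  have hr0 : 0 < r := div_pos (by linarith) (by linarith)
  have hr1 : r < 1 := by
    rw [hr, div_lt_one (by linarith)]; linarith
  have h1 := S.good.le_rho hr0 hr1 (fun z hz => S.kap_nonneg hs0 hs1 hG hz) S.ph_im_nonneg
    S.ph_im_nonpos (S.neg_axis_bound hs0 hs1 hm hlam hlam0)
  refine le_trans (le_of_eq ?_) h1
  have hf : ‖fh (hS b L M) (-(r:ℂ))‖ ≠ 0 := by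
    rw [norm_ne_zero_iff]
    intro h0
    rw [fh_eq_zero, neg_eq_zero, ofReal_eq_zero] at h0
    exact hr0.ne' h0
  rw [Real.exp_neg, ← hr]
  field_simp

end SData

end Pool.Agent.Lib_helper46.Schild
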