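import Pool.Agent.Lib_helper46.Schild.Family

set_option autoImplicit false

open Complex Metric Set

namespace Pool.Agent.Lib_helper46.Schild

variable {b : ℝ} {L M : ℂ → ℂ}

lemma neg_log_le {s l : ℝ} (hs0 : 0 < s) (hs1 : s < 1) (hl : 0 ≤ l) (n : ℕ)
    (h : (1 + s) / (1 - s) ≤ ∑ k ∈ Finset.range n, l ^ k / (k.factorial : ℝ)) :
    -Real.log ((1 - s) / (1 + s)) ≤ l := by
  have h1 : (1 - s) / (1 + s) = ((1 + s) / (1 - s))⁻¹ := by rw [inv_div]
  rw [h1, Real.log_inv, neg_neg]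
  have h2 : 0 < (1 + s) / (1 - s) := div_pos (by linarith) (by linarith)
  rw [Real.log_le_iff_le_exp h2]
  exact h.trans (Real.sum_le_exp_of_nonneg hl n)

theorem piece (Sd : SData b L M) (S b0 b1 n0 : ℤ) (l : List ℤ) (m el : ℝ) (hS0 : (0:ℝ) < S)
    (hS1 : (S:ℝ) < 1000) (hchk : chk S b0 b1 (n0 :: l) = true)
    (hb0 : (b0:ℝ) ≤ 1000 * b ^ 2) (hb1 : 1000 * b ^ 2 < b1)
    (hn0 : (n0:ℝ) ≤ 40000 * ((S:ℝ) / 1000) ^ 2)
    (hnl : 40000 < (lastD n0 l : ℝ) * ((S:ℝ) / 1000) ^ 2)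
    (hm : 0 < m) (hel : 0 ≤ el)
    (hlog : (1 + (S:ℝ) / 1000) / (1 - (S:ℝ) / 1000) ≤
      ∑ k ∈ Finset.range 12, el ^ k / (k.factorial : ℝ))
    (hfin : (m ^ 2 + 1) / 2 * el - (b0:ℝ) / 1000 * ((S:ℝ) / 1000) ≤ m * 0.484) :
    Real.exp (-0.484) ≤ rho (fh (hS b L M)) := by
  have hs0 : (0:ℝ) < (S:ℝ) / 1000 := by positivity
  have hs1 : (S:ℝ) / 1000 < 1 := by rw [div_lt_one (by norm_num)]; exact hS1
  apply Sd.rho_ge hs0 hs1 hm _ (by norm_num)
  · intro N X hN1 hN2 hX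
    apply chk_nonneg rfl hX hb0 hb1 l n0 hchk
    · linarith
    · have hsq : 0 < ((S:ℝ) / 1000) ^ 2 := by positivity
      have h3 : 40000 * N * ((S:ℝ) / 1000) ^ 2 < (lastD n0 l : ℝ) * ((S:ℝ) / 1000) ^ 2 := by
        linarith
      exact lt_of_mul_lt_mul_right h3 hsq.le
  · have h1 := neg_log_le hs0 hs1 hel 12 hlog
    have h2 : (m ^ 2 + 1) / 2 * (-Real.log ((1 - (S:ℝ) / 1000) / (1 + (S:ℝ) / 1000)))
        ≤ (m ^ 2 + 1) / 2 * el := by
      apply mul_le_mul_of_nonneg_left h1 (by positivity)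
    have h3 : (b0:ℝ) / 1000 * ((S:ℝ) / 1000) ≤ b ^ 2 * ((S:ℝ) / 1000) := by
      apply mul_le_mul_of_nonneg_right _ hs0.le
      linarith
    linarith

theorem piece1 (Sd : SData b L M) (h0 : 0 ≤ 1000 * b ^ 2) (h1 : 1000 * b ^ 2 < 229) :
    Real.exp (-0.484) ≤ rho (fh (hS b L M)) := by
  refine piece Sd 237 0 229 2244 _ (1/1) (120797/250000) (by norm_num) (by norm_num) chk1
    (by exact_mod_cast h0) (by exact_mod_cast h1) ?_ ?_ ?_ ?_ ?_ ?_
  all_goals norm_num [lastD, Finset.sum_range_succ, Nat.factorial]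

theorem piece2 (Sd : SData b L M) (h0 : 229 ≤ 1000 * b ^ 2) (h1 : 1000 * b ^ 2 < 338) :
    Real.exp (-0.484) ≤ rho (fh (hS b L M)) := by
  refine piece Sd 267 229 338 2848 _ (881/1000) (547263/1000000) (by norm_num) (by norm_num) chk2
    (by exact_mod_cast h0) (by exact_mod_cast h1) ?_ ?_ ?_ ?_ ?_ ?_
  all_goals norm_num [lastD, Finset.sum_range_succ, Nat.factorial]

theorem piece3 (Sd : SData b L M) (h0 : 338 ≤ 1000 * b ^ 2) (h1 : 1000 * b ^ 2 < 422) :
    Real.exp (-0.484) ≤ rho (fh (hS b L M)) := by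
  refine piece Sd 287 338 422 3292 _ (819/1000) (590589/1000000) (by norm_num) (by norm_num) chk3
    (by exact_mod_cast h0) (by exact_mod_cast h1) ?_ ?_ ?_ ?_ ?_ ?_
  all_goals norm_num [lastD, Finset.sum_range_succ, Nat.factorial]

theorem piece4 (Sd : SData b L M) (h0 : 422 ≤ 1000 * b ^ 2) (h1 : 1000 * b ^ 2 < 497) :
    Real.exp (-0.484) ≤ rho (fh (hS b L M)) := by
  refine piece Sd 304 422 497 3696 _ (769/1000) (156961/250000) (by norm_num) (by norm_num) chk4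
    (by exact_mod_cast h0) (by exact_mod_cast h1) ?_ ?_ ?_ ?_ ?_ ?_
  all_goals norm_num [lastD, Finset.sum_range_succ, Nat.factorial]

theorem piece5 (Sd : SData b L M) (h0 : 497 ≤ 1000 * b ^ 2) (h1 : 1000 * b ^ 2 < 580) :
    Real.exp (-0.484) ≤ rho (fh (hS b L M)) := by
  refine piece Sd 323 497 580 4172 _ (361/500) (669987/1000000) (by norm_num) (by norm_num) chk5
    (by exact_mod_cast h0) (by exact_mod_cast h1) ?_ ?_ ?_ ?_ ?_ ?_
  all_goals norm_num [lastD, Finset.sum_range_succ, Nat.factorial]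

theorem piece6 (Sd : SData b L M) (h0 : 580 ≤ 1000 * b ^ 2) (h1 : 1000 * b ^ 2 < 675) :
    Real.exp (-0.484) ≤ rho (fh (hS b L M)) := by
  refine piece Sd 347 580 675 4816 _ (333/500) (36203/50000) (by norm_num) (by norm_num) chk6
    (by exact_mod_cast h0) (by exact_mod_cast h1) ?_ ?_ ?_ ?_ ?_ ?_
  all_goals norm_num [lastD, Finset.sum_range_succ, Nat.factorial]

theorem piece7 (Sd : SData b L M) (h0 : 675 ≤ 1000 * b ^ 2) (h1 : 1000 * b ^ 2 < 782) :
    Real.exp (-0.484) ≤ rho (fh (hS b L M)) := by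
  refine piece Sd 383 675 782 5864 _ (3/5) (807143/1000000) (by norm_num) (by norm_num) chk7
    (by exact_mod_cast h0) (by exact_mod_cast h1) ?_ ?_ ?_ ?_ ?_ ?_
  all_goals norm_num [lastD, Finset.sum_range_succ, Nat.factorial]

theorem piece8 (Sd : SData b L M) (h0 : 782 ≤ 1000 * b ^ 2) (h1 : 1000 * b ^ 2 < 866) :
    Real.exp (-0.484) ≤ rho (fh (hS b L M)) := by
  refine piece Sd 434 782 866 7532 _ (519/1000) (92963/100000) (by norm_num) (by norm_num) chk8
    (by exact_mod_cast h0) (by exact_mod_cast h1) ?_ ?_ ?_ ?_ ?_ ?_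
  all_goals norm_num [lastD, Finset.sum_range_succ, Nat.factorial]

theorem piece9 (Sd : SData b L M) (h0 : 866 ≤ 1000 * b ^ 2) (h1 : 1000 * b ^ 2 < 908) :
    Real.exp (-0.484) ≤ rho (fh (hS b L M)) := by
  refine piece Sd 486 866 908 9444 _ (91/200) (1061621/1000000) (by norm_num) (by norm_num) chk9
    (by exact_mod_cast h0) (by exact_mod_cast h1) ?_ ?_ ?_ ?_ ?_ ?_
  all_goals norm_num [lastD, Finset.sum_range_succ, Nat.factorial]

theorem piece10 (Sd : SData b L M) (h0 : 908 ≤ 1000 * b ^ 2) (h1 : 1000 * b ^ 2 < 933) :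
    Real.exp (-0.484) ≤ rho (fh (hS b L M)) := by
  refine piece Sd 516 908 933 10648 _ (423/1000) (1141747/1000000) (by norm_num) (by norm_num) chk10
    (by exact_mod_cast h0) (by exact_mod_cast h1) ?_ ?_ ?_ ?_ ?_ ?_
  all_goals norm_num [lastD, Finset.sum_range_succ, Nat.factorial]

theorem piece11 (Sd : SData b L M) (h0 : 933 ≤ 1000 * b ^ 2) (h1 : 1000 * b ^ 2 < 951) :
    Real.exp (-0.484) ≤ rho (fh (hS b L M)) := by
  refine piece Sd 535 933 951 11448 _ (81/200) (4777/4000) (by norm_num) (by norm_num) chk11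
    (by exact_mod_cast h0) (by exact_mod_cast h1) ?_ ?_ ?_ ?_ ?_ ?_
  all_goals norm_num [lastD, Finset.sum_range_succ, Nat.factorial]

theorem piece12 (Sd : SData b L M) (h0 : 951 ≤ 1000 * b ^ 2) (h1 : 1000 * b ^ 2 < 965) :
    Real.exp (-0.484) ≤ rho (fh (hS b L M)) := by
  refine piece Sd 549 951 965 12056 _ (49/125) (1233899/1000000) (by norm_num) (by norm_num) chk12
    (by exact_mod_cast h0) (by exact_mod_cast h1) ?_ ?_ ?_ ?_ ?_ ?_
  all_goals norm_num [lastD, Finset.sum_range_succ, Nat.factorial]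

theorem piece13 (Sd : SData b L M) (h0 : 965 ≤ 1000 * b ^ 2) (h1 : 1000 * b ^ 2 < 978) :
    Real.exp (-0.484) ≤ rho (fh (hS b L M)) := by
  refine piece Sd 560 965 978 12544 _ (191/500) (316417/250000) (by norm_num) (by norm_num) chk13
    (by exact_mod_cast h0) (by exact_mod_cast h1) ?_ ?_ ?_ ?_ ?_ ?_
  all_goals norm_num [lastD, Finset.sum_range_succ, Nat.factorial]

theorem piece14 (Sd : SData b L M) (h0 : 978 ≤ 1000 * b ^ 2) (h1 : 1000 * b ^ 2 < 990) :
    Real.exp (-0.484) ≤ rho (fh (hS b L M)) := by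
  refine piece Sd 570 978 990 12996 _ (373/1000) (1295047/1000000) (by norm_num) (by norm_num) chk14
    (by exact_mod_cast h0) (by exact_mod_cast h1) ?_ ?_ ?_ ?_ ?_ ?_
  all_goals norm_num [lastD, Finset.sum_range_succ, Nat.factorial]

theorem piece15 (Sd : SData b L M) (h0 : 990 ≤ 1000 * b ^ 2) (h1 : 1000 * b ^ 2 < 1001) :
    Real.exp (-0.484) ≤ rho (fh (hS b L M)) := by
  refine piece Sd 580 990 1001 13456 _ (73/200) (1324927/1000000) (by norm_num) (by norm_num) chk15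
    (by exact_mod_cast h0) (by exact_mod_cast h1) ?_ ?_ ?_ ?_ ?_ ?_
  all_goals norm_num [lastD, Finset.sum_range_succ, Nat.factorial]

/-- The ratio is at least `exp (-0.484)` on the whole family. -/
theorem family_bound (Sd : SData b L M) : Real.exp (-0.484) ≤ rho (fh (hS b L M)) := by
  have hb0 := Sd.b0
  have hb1 := Sd.b1
  have hsq0 : 0 ≤ 1000 * b ^ 2 := by positivity
  have hsq1 : 1000 * b ^ 2 < 1001 := by nlinarith
  rcases lt_or_ge (1000 * b ^ 2) 229 with k1 | h1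
  · exact piece1 Sd hsq0 k1
  rcases lt_or_ge (1000 * b ^ 2) 338 with k2 | h2
  · exact piece2 Sd h1 k2
  rcases lt_or_ge (1000 * b ^ 2) 422 with k3 | h3
  · exact piece3 Sd h2 k3
  rcases lt_or_ge (1000 * b ^ 2) 497 with k4 | h4
  · exact piece4 Sd h3 k4
  rcases lt_or_ge (1000 * b ^ 2) 580 with k5 | h5
  · exact piece5 Sd h4 k5
  rcases lt_or_ge (1000 * b ^ 2) 675 with k6 | h6
  · exact piece6 Sd h5 k6
  rcases lt_or_ge (1000 * b ^ 2) 782 with k7 | h7
  · exact piece7 Sd h6 k7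
  rcases lt_or_ge (1000 * b ^ 2) 866 with k8 | h8
  · exact piece8 Sd h7 k8
  rcases lt_or_ge (1000 * b ^ 2) 908 with k9 | h9
  · exact piece9 Sd h8 k9
  rcases lt_or_ge (1000 * b ^ 2) 933 with k10 | h10
  · exact piece10 Sd h9 k10
  rcases lt_or_ge (1000 * b ^ 2) 951 with k11 | h11
  · exact piece11 Sd h10 k11
  rcases lt_or_ge (1000 * b ^ 2) 965 with k12 | h12
  · exact piece12 Sd h11 k12
  rcases lt_or_ge (1000 * b ^ 2) 978 with k13 | h13
  · exact piece13 Sd h12 k13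
  rcases lt_or_ge (1000 * b ^ 2) 990 with k14 | h14
  · exact piece14 Sd h13 k14
  exact piece15 Sd h14 hsq1


/-- The case `b = 0`. -/
lemma sqrt_zero_case {z : ℂ} (hz : z ∈ ball (0:ℂ) 1) : Rb 0 z = 1 - z := by
  have h1 : Rb 0 z ^ 2 = (1 - z) ^ 2 := by
    rw [Rb_sq]
    unfold qd
    push_cast
    ring
  rcases sq_eq_sq_iff_eq_or_eq_neg.1 h1 with h2 | h2
  · exact h2
  · exfalso
    have h3 := Rb_re_pos (b := 0) le_rfl zero_le_one hz
    rw [h2, neg_re, sub_re, one_re] at h3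
    have h4 := normSq_lt_one hz
    nlinarith [sq_nonneg z.im]

lemma exp_neg_lam : (0.616 : ℝ) < Real.exp (-0.484) := by
  have h1 : Real.exp 0.484 * Real.exp (-0.484) = 1 := by
    rw [← Real.exp_add]; simp
  have h2 : Real.exp 0.121 ≤ 1.1287 := by
    have := Real.exp_bound' (x := 0.121) (by norm_num) (by norm_num) (n := 5) (by norm_num)
    refine this.trans ?_
    norm_num [Finset.sum_range_succ, Nat.factorial]
  have h3 : Real.exp 0.484 = Real.exp 0.121 ^ 4 := by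
    rw [← Real.exp_nat_mul]; norm_num
  have h4 : Real.exp 0.484 < 1 / 0.616 := by
    rw [h3]
    refine lt_of_le_of_lt (pow_le_pow_left₀ (Real.exp_pos _).le h2 4) ?_
    norm_num
  have h5 := Real.exp_pos (-0.484)
  have h6 := Real.exp_pos 0.484
  by_contra hcon
  push Not at hcon
  have h7 : Real.exp 0.484 * Real.exp (-0.484) < 1 / 0.616 * 0.616 := by
    apply mul_lt_mul h4 hcon h5 (by norm_num)
  rw [h1] at h7
  norm_num at h7

end Pool.Agent.Lib_helper46.Schild
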