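import Mathlib

set_option autoImplicit false

open Complex Metric Set

namespace Pool.Agent.Lib_helper46.Schild

/-- `z * exp (h z)`. -/
noncomputable def fh (h : ℂ → ℂ) (z : ℂ) : ℂ := z * exp (h z)

/-- `z f'(z) / f(z)` for `f = fh h`. -/
noncomputable def ph (h : ℂ → ℂ) (z : ℂ) : ℂ := 1 + z * deriv h z

/-- The standing assumption: `h` is holomorphic on the disc and `Re (z f'/f) > 0`. -/
structure Good (h : ℂ → ℂ) : Prop where
  diff : DifferentiableOn ℂ h (ball 0 1)
  pos : ∀ z ∈ ball (0:ℂ) 1, 0 < (ph h z).re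

variable {h : ℂ → ℂ}

lemma Good.hasDerivAt (H : Good h) {z : ℂ} (hz : z ∈ ball (0:ℂ) 1) :
    HasDerivAt h (deriv h z) z :=
  ((H.diff z hz).differentiableAt (isOpen_ball.mem_nhds hz)).hasDerivAt

lemma Good.hasDerivAt_fh (H : Good h) {z : ℂ} (hz : z ∈ ball (0:ℂ) 1) :
    HasDerivAt (fh h) (exp (h z) * ph h z) z := by
  have h1 := (hasDerivAt_id z).mul ((H.hasDerivAt hz).cexp)
  refine h1.congr_deriv ?_
  simp only [id, ph]
  ring

lemma Good.differentiableOn_fh (H : Good h) : DifferentiableOn ℂ (fh h) (ball 0 1) :=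
  fun _ hz => (H.hasDerivAt_fh hz).differentiableAt.differentiableWithinAt

lemma Good.continuousOn_fh (H : Good h) : ContinuousOn (fh h) (ball 0 1) :=
  H.differentiableOn_fh.continuousOn

lemma fh_zero : fh h 0 = 0 := by simp [fh]

lemma fh_eq_zero {z : ℂ} : fh h z = 0 ↔ z = 0 := by simp [fh, exp_ne_zero]

lemma Good.ph_ne (H : Good h) {z : ℂ} (hz : z ∈ ball (0:ℂ) 1) : ph h z ≠ 0 := by
  intro h0
  have := H.pos z hz
  rw [h0] at this
  simp at this

/-- A holomorphic function on a convex set whose derivative has positive real part is injective. -/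
lemma injOn_of_re_deriv_pos {F F' : ℂ → ℂ} {S : Set ℂ} (hS : Convex ℝ S)
    (hF : ∀ z ∈ S, HasDerivAt F (F' z) z) (hp : ∀ z ∈ S, 0 < (F' z).re) : InjOn F S := by
  intro z1 h1 z2 h2 he
  by_contra hne
  have hmem : ∀ t ∈ Icc (0:ℝ) 1, z1 + t * (z2 - z1) ∈ S := by
    intro t ht
    have := hS.add_smul_sub_mem h1 h2 ht
    simpa using this
  have hder : ∀ t ∈ Icc (0:ℝ) 1, HasDerivAt
      (fun t : ℝ => (F (z1 + t * (z2 - z1)) * (starRingEnd ℂ) (z2 - z1)).re)
      ((F' (z1 + t * (z2 - z1)) * (z2 - z1) * (starRingEnd ℂ) (z2 - z1)).re) t := by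
    intro t ht
    have hl : HasDerivAt (fun t : ℝ => z1 + (t:ℂ) * (z2 - z1)) (z2 - z1) t := by
      have := ((hasDerivAt_id (t:ℂ)).comp_ofReal).mul_const (z2 - z1)
      simpa using this.const_add z1
    have h3 := (hF _ (hmem t ht)).scomp t hl
    have h4 := (h3.mul_const ((starRingEnd ℂ) (z2 - z1)))
    have h5 := (reCLM.hasFDerivAt (x := F (z1 + t * (z2 - z1)) * (starRingEnd ℂ) (z2 - z1))).comp_hasDerivAt t h4
    refine h5.congr_deriv ?_
    simp only [smul_eq_mul, reCLM_apply]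
    congr 1
    ring
  have hpos : ∀ t ∈ Icc (0:ℝ) 1,
      0 < ((F' (z1 + t * (z2 - z1)) * (z2 - z1) * (starRingEnd ℂ) (z2 - z1)).re) := by
    intro t ht
    rw [mul_assoc, mul_conj, re_mul_ofReal]
    apply mul_pos (hp _ (hmem t ht))
    exact normSq_pos.2 (sub_ne_zero.2 (Ne.symm hne))
  obtain ⟨c, hc, hc'⟩ := exists_hasDerivAt_eq_slope
    (fun t : ℝ => (F (z1 + t * (z2 - z1)) * (starRingEnd ℂ) (z2 - z1)).re)
    (fun t : ℝ => ((F' (z1 + t * (z2 - z1)) * (z2 - z1) * (starRingEnd ℂ) (z2 - z1)).re))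
    (zero_lt_one) (fun t ht => (hder t ht).continuousAt.continuousWithinAt)
    (fun t ht => hder t (Ioo_subset_Icc_self ht))
  have := hpos c (Ioo_subset_Icc_self hc)
  rw [hc'] at this
  simp [he] at this

lemma exp_mem_ball {ζ : ℂ} (hζ : ζ.re < 0) : exp ζ ∈ ball (0:ℂ) 1 := by
  rw [mem_ball_zero_iff, norm_exp]
  simpa using Real.exp_lt_exp.2 hζ

/-- The function `Φ(ζ) = ζ + h(e^ζ)` with `exp Φ(ζ) = f(e^ζ)`. -/
lemma Good.hasDerivAt_Phi (H : Good h) {ζ : ℂ} (hζ : ζ.re < 0) :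
    HasDerivAt (fun ζ => ζ + h (exp ζ)) (ph h (exp ζ)) ζ := by
  have h1 := (H.hasDerivAt (exp_mem_ball hζ)).comp ζ (hasDerivAt_exp ζ)
  refine ((hasDerivAt_id ζ).add h1).congr_deriv ?_
  simp only [ph]
  ring

lemma fh_exp (ζ : ℂ) : fh h (exp ζ) = exp (ζ + h (exp ζ)) := by
  simp [fh, exp_add]

theorem Good.injOn (H : Good h) : InjOn (fh h) (ball 0 1) := by
  intro z1 h1 z2 h2 he
  by_cases hz1 : z1 = 0
  · subst hz1
    rw [fh_zero] at he
    exact (fh_eq_zero.1 he.symm).symm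
  have hz2 : z2 ≠ 0 := by
    intro h0
    subst h0
    rw [fh_zero] at he
    exact hz1 (fh_eq_zero.1 he)
  have hl1 : (log z1).re < 0 := by
    rw [log_re]
    exact Real.log_neg (norm_pos_iff.2 hz1) (mem_ball_zero_iff.1 h1)
  have hl2 : (log z2).re < 0 := by
    rw [log_re]
    exact Real.log_neg (norm_pos_iff.2 hz2) (mem_ball_zero_iff.1 h2)
  have e1 : exp (log z1) = z1 := exp_log hz1
  have e2 : exp (log z2) = z2 := exp_log hz2
  rw [← e1, ← e2, fh_exp, fh_exp, exp_eq_exp_iff_exists_int] at he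
  obtain ⟨n, hn⟩ := he
  have hper : exp (log z2 + n * (2 * Real.pi * I)) = exp (log z2) :=
    exp_periodic.int_mul n _
  have hinj := injOn_of_re_deriv_pos (S := {ζ : ℂ | ζ.re < 0}) (convex_halfSpace_re_lt 0)
    (fun ζ hζ => H.hasDerivAt_Phi hζ) (fun ζ hζ => H.pos _ (exp_mem_ball hζ))
  have h3 : log z1 = log z2 + n * (2 * Real.pi * I) := by
    apply hinj (show (log z1).re < 0 from hl1)
    · change (log z2 + n * (2 * Real.pi * I)).re < 0
      have : ((n:ℂ) * (2 * Real.pi * I)).re = 0 := by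
        simp
      rw [add_re, this, add_zero]
      exact hl2
    · simp only [hper]
      rw [hn]
      ring
  rw [← e1, h3, hper, e2]

/-- `exp ∘ Φ` on a vertical line: the argument of `f` is strictly increasing. -/
lemma Good.strictMono_arg (H : Good h) {r : ℝ} (hr : 0 < r) (hr1 : r < 1) :
    StrictMono (fun θ : ℝ => θ + (h (r * exp (θ * I))).im) := by
  have key : ∀ θ : ℝ, HasDerivAt (fun θ : ℝ => θ + (h (r * exp (θ * I))).im)
      ((ph h (r * exp (θ * I))).re) θ := by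
    intro θ
    have hlog : (Real.log r : ℂ) = Real.log r := rfl
    have hz : ∀ θ : ℝ, exp ((Real.log r : ℂ) + θ * I) = r * exp (θ * I) := by
      intro θ
      rw [exp_add, ← ofReal_exp, Real.exp_log hr]
    have hre : ∀ θ : ℝ, ((Real.log r : ℂ) + θ * I).re < 0 := by
      intro θ
      simp
      exact Real.log_neg hr hr1
    have hl : HasDerivAt (fun θ : ℝ => (Real.log r : ℂ) + (θ:ℂ) * I) I θ := by
      have := ((hasDerivAt_id (θ:ℂ)).comp_ofReal).mul_const I
      simpa using this.const_add (Real.log r : ℂ)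
    have h3 := (H.hasDerivAt_Phi (hre θ)).scomp θ hl
    have h5 := (imCLM.hasFDerivAt).comp_hasDerivAt θ h3
    have h6 : (imCLM ∘ ((fun ζ => ζ + h (exp ζ)) ∘ fun θ : ℝ => (Real.log r : ℂ) + (θ:ℂ) * I))
        = (fun θ : ℝ => θ + (h (r * exp (θ * I))).im) := by
      funext θ
      simp only [Function.comp, imCLM_apply, hz]
      simp
    rw [h6] at h5
    refine h5.congr_deriv ?_
    simp only [smul_eq_mul, imCLM_apply, hz]
    simp
  apply strictMono_of_deriv_pos
  intro θ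
  rw [(key θ).deriv]
  apply H.pos
  rw [mem_ball_zero_iff, norm_mul, norm_exp_ofReal_mul_I, mul_one, norm_real, Real.norm_eq_abs,
    abs_of_pos hr]
  exact hr1

/-- Two points of a circle on the same ray coincide. -/
lemma Good.same_ray (H : Good h) {r : ℝ} (hr : 0 < r) (hr1 : r < 1) {z1 z2 : ℂ}
    (h1 : ‖z1‖ = r) (h2 : ‖z2‖ = r) {τ : ℝ} (hτ : 0 < τ) (he : fh h z1 = τ * fh h z2) :
    z1 = z2 := by
  have e1 : z1 = r * exp (arg z1 * I) := by rw [← h1]; exact (norm_mul_exp_arg_mul_I z1).symm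
  have e2 : z2 = r * exp (arg z2 * I) := by rw [← h2]; exact (norm_mul_exp_arg_mul_I z2).symm
  have hrc : (r:ℂ) ≠ 0 := by exact_mod_cast hr.ne'
  -- compare arguments
  have h3 : exp (arg z1 * I + h z1) = exp ((Real.log τ : ℂ) + (arg z2 * I + h z2)) := by
    have h4 : (r:ℂ) * exp (arg z1 * I + h z1) = r * exp ((Real.log τ : ℂ) + (arg z2 * I + h z2)) := by
      rw [exp_add, exp_add, exp_add, ← ofReal_exp, Real.exp_log hτ, ← mul_assoc, ← e1]
      have : (r:ℂ) * (τ * (exp (arg z2 * I) * exp (h z2))) = τ * ((r * exp (arg z2 * I)) * exp (h z2)) := by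
        ring
      rw [this, ← e2]
      exact he
    exact mul_left_cancel₀ hrc h4
  rw [exp_eq_exp_iff_exists_int] at h3
  obtain ⟨n, hn⟩ := h3
  have h5 := congrArg Complex.im hn
  simp only [add_im, mul_im, ofReal_re, I_im, mul_one, ofReal_im, I_re, mul_zero, add_zero,
    zero_add] at h5
  have h6 : ((n:ℂ) * (2 * Real.pi * I)).im = n * (2 * Real.pi) := by simp
  have hn' : (n : ℂ).im = 0 := by simp
  have hexp : ∀ θ : ℝ, exp (((θ + n * (2 * Real.pi) : ℝ) : ℂ) * I) = exp (θ * I) := by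
    intro θ
    have : (((θ + n * (2 * Real.pi) : ℝ) : ℂ) * I) = θ * I + n * (2 * Real.pi * I) := by
      push_cast; ring
    rw [this]
    exact exp_periodic.int_mul n _
  have h7 : (fun θ : ℝ => θ + (h (r * exp (θ * I))).im) (arg z1)
      = (fun θ : ℝ => θ + (h (r * exp (θ * I))).im) (arg z2 + n * (2 * Real.pi)) := by
    simp only [hexp, ← e1, ← e2]
    simp at h5
    linarith
  have h8 := (H.strictMono_arg hr hr1).injective h7
  rw [e1, e2, h8, hexp]

end Pool.Agent.Lib_helper46.Schild
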