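import Mathlib

set_option autoImplicit false

namespace Pool.Agent.Lib_helper46.Schild

/-! Integer polynomials in one and two variables as coefficient lists. -/

def padd : List ℤ → List ℤ → List ℤ
  | [], q => q
  | a :: p, [] => a :: p
  | a :: p, b :: q => (a + b) :: padd p q

def pscale (c : ℤ) : List ℤ → List ℤ
  | [] => []
  | a :: p => (c * a) :: pscale c p

def pmul : List ℤ → List ℤ → List ℤ
  | [], _ => []
  | a :: p, q => padd (pscale a q) (0 :: pmul p q)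

def peval (x : ℝ) : List ℤ → ℝ
  | [] => 0
  | a :: p => a + x * peval x p

lemma peval_padd (x : ℝ) : ∀ p q, peval x (padd p q) = peval x p + peval x q
  | [], q => by simp [padd, peval]
  | a :: p, [] => by simp [padd, peval]
  | a :: p, b :: q => by
    simp only [padd, peval, peval_padd x p q]
    push_cast
    ring

lemma peval_pscale (x : ℝ) (c : ℤ) : ∀ p, peval x (pscale c p) = c * peval x p
  | [] => by simp [pscale, peval]
  | a :: p => by
    simp only [pscale, peval, peval_pscale x c p]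
    push_cast
    ring

lemma peval_pmul (x : ℝ) : ∀ p q, peval x (pmul p q) = peval x p * peval x q
  | [], q => by simp [pmul, peval]
  | a :: p, q => by
    simp only [pmul, peval, peval_padd, peval_pscale, peval_pmul x p q]
    push_cast
    ring

/-- two-variable polynomials -/
abbrev P2 := List (List ℤ)

def qadd : P2 → P2 → P2
  | [], q => q
  | a :: p, [] => a :: p
  | a :: p, b :: q => padd a b :: qadd p q

def qscale (c : List ℤ) : P2 → P2
  | [] => []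
  | a :: p => pmul c a :: qscale c p

def qmul : P2 → P2 → P2
  | [], _ => []
  | a :: p, q => qadd (qscale a q) ([] :: qmul p q)

def qeval (u v : ℝ) : P2 → ℝ
  | [] => 0
  | a :: p => peval v a + u * qeval u v p

lemma qeval_qadd (u v : ℝ) : ∀ p q, qeval u v (qadd p q) = qeval u v p + qeval u v q
  | [], q => by simp [qadd, qeval]
  | a :: p, [] => by simp [qadd, qeval]
  | a :: p, b :: q => by
    simp only [qadd, qeval, qeval_qadd u v p q, peval_padd]
    ring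

lemma qeval_qscale (u v : ℝ) (c : List ℤ) : ∀ p, qeval u v (qscale c p) = peval v c * qeval u v p
  | [] => by simp [qscale, qeval]
  | a :: p => by
    simp only [qscale, qeval, qeval_qscale u v c p, peval_pmul]
    ring

lemma qeval_qmul (u v : ℝ) : ∀ p q, qeval u v (qmul p q) = qeval u v p * qeval u v q
  | [], q => by simp [qmul, qeval]
  | a :: p, q => by
    simp only [qmul, qeval, qeval_qadd, qeval_qscale, qeval_qmul u v p q, peval]
    ring

/-- constant -/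
def qc (c : ℤ) : P2 := [[c]]

lemma qeval_qc (u v : ℝ) (c : ℤ) : qeval u v (qc c) = c := by
  simp [qc, qeval, peval]

def pnn : List ℤ → Bool
  | [] => true
  | a :: p => decide (0 ≤ a) && pnn p

def qnn : P2 → Bool
  | [] => true
  | a :: p => pnn a && qnn p

lemma peval_nonneg {x : ℝ} (hx : 0 ≤ x) : ∀ p, pnn p = true → 0 ≤ peval x p
  | [], _ => le_refl _
  | a :: p, h => by
    simp only [pnn, Bool.and_eq_true, decide_eq_true_eq] at h
    have h1 := peval_nonneg hx p h.2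
    have h2 : (0:ℝ) ≤ a := by exact_mod_cast h.1
    simp only [peval]
    positivity

lemma qeval_nonneg {u v : ℝ} (hu : 0 ≤ u) (hv : 0 ≤ v) : ∀ p, qnn p = true → 0 ≤ qeval u v p
  | [], _ => le_refl _
  | a :: p, h => by
    simp only [qnn, Bool.and_eq_true] at h
    have h1 := qeval_nonneg hu hv p h.2
    have h2 := peval_nonneg hv a h.1
    simp only [qeval]
    positivity

/-- The homogenised polynomial `G` on the box `[n0/d, n1/d] x [b0/e, b1/e]`. -/
def gbox (c1 c2 d e n0 n1 b0 b1 : ℤ) : P2 :=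
  let Np : P2 := [[n0], [n1]]
  let Nq : P2 := [[d], [d]]
  let Bp : P2 := [[b0, b1]]
  let Bq : P2 := [[e, e]]
  let Bc : P2 := [[e - b0, e - b1]]
  let NB := qmul Np Bp
  let D := qadd (qmul Bc Nq) (qmul (qc (-1)) NB)
  let U := qadd (qmul Bc Nq) NB
  let S := qadd Np Nq
  let W := qmul S S
  let T := qadd (qmul (qc c2) (qmul D D)) (qmul (qc (4 * c1)) (qmul (qmul Bp Bc) W))
  let V := qadd (qmul (qc c2) (qmul U U)) T
  let E := qadd (qmul (qc c2) (qmul U (qmul Bq Nq))) (qmul (qc (-1)) T)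
  let F1 := qmul (qc (2 * c2)) (qmul T (qmul U Nq))
  let F2 := qmul (qadd (qmul (qc c2) (qmul D Nq)) (qmul (qc (2 * c1)) (qmul Bp W))) V
  let G1 := qmul (qc 2) (qmul (qmul T T) (qadd F1 F2))
  let G2 := qmul (qc (-c1)) (qmul (qmul W Bq) (qmul (qmul E E) V))
  qadd G1 G2

/-- The real polynomial whose sign decides convexity. -/
noncomputable def Gf (N β X : ℝ) : ℝ :=
  2 * ((1 - β - β * N) ^ 2 + 4 * β * (1 - β) * X) ^ 2 *
    (2 * ((1 - β - β * N) ^ 2 + 4 * β * (1 - β) * X) * (1 - β + β * N)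
      + ((1 - β - β * N) + 2 * β * X)
        * ((1 - β + β * N) ^ 2 + ((1 - β - β * N) ^ 2 + 4 * β * (1 - β) * X)))
  - X * ((1 - β + β * N) - ((1 - β - β * N) ^ 2 + 4 * β * (1 - β) * X)) ^ 2
    * ((1 - β + β * N) ^ 2 + ((1 - β - β * N) ^ 2 + 4 * β * (1 - β) * X))

lemma gbox_eval (c1 c2 d e n0 n1 b0 b1 : ℤ) (u v : ℝ) (N β Nq Bq X : ℝ)
    (hNq : (d:ℝ) * (1 + u) = Nq) (hNp : (n0:ℝ) + n1 * u = N * Nq)
    (hBq : (e:ℝ) * (1 + v) = Bq) (hBp : (b0:ℝ) + b1 * v = β * Bq)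
    (hX : (c2:ℝ) * X = c1 * (N + 1) ^ 2) :
    qeval u v (gbox c1 c2 d e n0 n1 b0 b1) = (c2:ℝ) ^ 4 * Nq ^ 8 * Bq ^ 7 * Gf N β X := by
  have eNp : qeval u v [[n0], [n1]] = N * Nq := by
    rw [← hNp]; simp [qeval, peval]; ring
  have eNq : qeval u v [[d], [d]] = Nq := by
    rw [← hNq]; simp [qeval, peval]; ring
  have eBp : qeval u v [[b0, b1]] = β * Bq := by
    rw [← hBp]; simp [qeval, peval]; ring
  have eBq : qeval u v [[e, e]] = Bq := by
    rw [← hBq]; simp [qeval, peval]; ring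
  have eBc : qeval u v [[e - b0, e - b1]] = (1 - β) * Bq := by
    have : (1 - β) * Bq = (e:ℝ) * (1 + v) - (b0 + b1 * v) := by rw [hBp, hBq]; ring
    rw [this]; simp [qeval, peval]; ring
  unfold gbox
  simp only [qeval_qadd, qeval_qmul, qeval_qc, eNp, eNq, eBp, eBq, eBc]
  unfold Gf
  push_cast
  have h1 : (c1:ℝ) * (N + 1) ^ 2 = c2 * X := hX.symm
  have hW : (N * Nq + Nq) * (N * Nq + Nq) = (N + 1) ^ 2 * Nq ^ 2 := by ring
  rw [hW]
  have k1 : ∀ t : ℝ, 4 * (c1:ℝ) * (t * ((N + 1) ^ 2 * Nq ^ 2)) = 4 * (c2 * X) * Nq ^ 2 * t := by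
    intro t; rw [← h1]; ring
  have k2 : ∀ t : ℝ, 2 * (c1:ℝ) * (t * ((N + 1) ^ 2 * Nq ^ 2)) = 2 * (c2 * X) * Nq ^ 2 * t := by
    intro t; rw [← h1]; ring
  have k3 : ∀ t t' : ℝ, -(c1:ℝ) * ((N + 1) ^ 2 * Nq ^ 2 * t * t') = -(c2 * X) * Nq ^ 2 * t * t' := by
    intro t t'; rw [← h1]; ring
  rw [k1, k2, k3]
  ring

theorem box_nonneg' {c1 c2 d e n0 n1 b0 b1 : ℤ} (hc2 : 0 < c2) (hd : 0 < d) (he : 0 < e)
    (hq : qnn (gbox c1 c2 d e n0 n1 b0 b1) = true)
    {N β X : ℝ} (hX : (c2:ℝ) * X = c1 * (N + 1) ^ 2)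
    (hN0 : (n0:ℝ) ≤ d * N) (hN1 : d * N < n1) (hβ0 : (b0:ℝ) ≤ e * β) (hβ1 : e * β < b1) :
    0 ≤ Gf N β X := by
  have hd' : (0:ℝ) < d := by exact_mod_cast hd
  have he' : (0:ℝ) < e := by exact_mod_cast he
  have hc2' : (0:ℝ) < c2 := by exact_mod_cast hc2
  have h1 : 0 < (n1:ℝ) - d * N := by linarith
  have h2 : 0 < (b1:ℝ) - e * β := by linarith
  obtain ⟨u, hu⟩ : ∃ u : ℝ, u = (d * N - n0) / (n1 - d * N) := ⟨_, rfl⟩
  obtain ⟨v, hv⟩ : ∃ v : ℝ, v = (e * β - b0) / (b1 - e * β) := ⟨_, rfl⟩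
  have hu0 : 0 ≤ u := by rw [hu]; exact div_nonneg (by linarith) h1.le
  have hv0 : 0 ≤ v := by rw [hv]; exact div_nonneg (by linarith) h2.le
  have e1 : (n0:ℝ) + n1 * u = N * (d * (1 + u)) := by rw [hu]; field_simp; ring
  have e2 : (b0:ℝ) + b1 * v = β * (e * (1 + v)) := by rw [hv]; field_simp; ring
  have key := gbox_eval c1 c2 d e n0 n1 b0 b1 u v N β _ _ X rfl e1 rfl e2 hX
  have h3 := qeval_nonneg hu0 hv0 _ hq
  rw [key] at h3
  have h4 : 0 < (c2:ℝ) ^ 4 * (d * (1 + u)) ^ 8 * (e * (1 + v)) ^ 7 := by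
    have h5 : 0 < (d:ℝ) * (1 + u) := mul_pos hd' (by linarith)
    have h6 : 0 < (e:ℝ) * (1 + v) := mul_pos he' (by linarith)
    exact mul_pos (mul_pos (pow_pos hc2' 4) (pow_pos h5 8)) (pow_pos h6 7)
  exact (mul_nonneg_iff_of_pos_left h4).1 h3

theorem box_nonneg {S d e n0 n1 b0 b1 : ℤ} (hd : 0 < d) (he : 0 < e)
    (hq : qnn (gbox (S ^ 2 * 10 ^ 6) ((10 ^ 6 + S ^ 2) ^ 2) d e n0 n1 b0 b1) = true)
    {N β X s : ℝ} (hs : s = (S:ℝ) / 1000) (hX : (1 + s ^ 2) ^ 2 * X = (N + 1) ^ 2 * s ^ 2)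
    (hN0 : (n0:ℝ) ≤ d * N) (hN1 : d * N < n1) (hβ0 : (b0:ℝ) ≤ e * β) (hβ1 : e * β < b1) :
    0 ≤ Gf N β X := by
  have h0 : (0:ℤ) < (10 ^ 6 + S ^ 2) ^ 2 := by
    clear hq
    positivity
  refine box_nonneg' h0 hd he hq ?_ hN0 hN1 hβ0 hβ1
  push_cast
  rw [hs] at hX
  linear_combination (10 ^ 12 : ℝ) * hX

end Pool.Agent.Lib_helper46.Schild
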