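import Pool.Agent.Lib_helper46.Schild.Converse

set_option autoImplicit false

open Complex Metric Set

namespace Pool.Agent.Lib_helper46.Schild

variable {h : ℂ → ℂ}

/-- The radius of convexity, exactly as in the frozen statement. -/
noncomputable def rad (f : ℂ → ℂ) : ℝ :=
  sSup {r : ℝ | 0 < r ∧ r ≤ 1 ∧ Convex ℝ (f '' Metric.ball (0:ℂ) r)}

/-- Schild's ratio, exactly as in the frozen statement. -/
noncomputable def rho (f : ℂ → ℂ) : ℝ :=
  sInf ((fun w : ℂ => ‖w‖) '' frontier (f '' Metric.ball (0:ℂ)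
        (sSup {r : ℝ | 0 < r ∧ r ≤ 1 ∧ Convex ℝ (f '' Metric.ball (0:ℂ) r)})))
      / Metric.infDist (0:ℂ) (f '' Metric.ball (0:ℂ) 1)ᶜ

lemma rho_eq (f : ℂ → ℂ) : rho f =
    sInf ((fun w : ℂ => ‖w‖) '' frontier (f '' ball (0:ℂ) (rad f))) /
      infDist (0:ℂ) (f '' ball (0:ℂ) 1)ᶜ := rfl

lemma rho_nonneg (f : ℂ → ℂ) : 0 ≤ rho f := by
  rw [rho_eq]
  apply div_nonneg _ infDist_nonneg
  apply Real.sInf_nonneg
  rintro _ ⟨w, -, rfl⟩
  exact norm_nonneg w

lemma rad_nonneg (f : ℂ → ℂ) : 0 ≤ rad f := by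
  apply Real.sSup_nonneg
  intro r hr
  exact hr.1.le

lemma rad_le_one (f : ℂ → ℂ) : rad f ≤ 1 := by
  apply Real.sSup_le _ zero_le_one
  intro r hr
  exact hr.2.1

/-- Covering lemma: `‖z‖ ≤ M ‖f z‖` forces all omitted values to have norm at least `1/M`. -/
lemma Good.omitted_ge (H : Good h) {M : ℝ} (hM0 : 0 < M)
    (hM : ∀ z ∈ ball (0:ℂ) 1, ‖z‖ ≤ M * ‖fh h z‖) {w : ℂ} (hw : w ∉ fh h '' ball 0 1) :
    1 / M ≤ ‖w‖ := by
  by_contra hcon
  push Not at hcon
  rw [lt_div_iff₀ hM0] at hcon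
  obtain ⟨r, hr1, hr2⟩ := exists_between hcon
  have hr0 : 0 < r := (mul_nonneg (norm_nonneg w) hM0.le).trans_lt hr1
  apply hw
  have h1 := H.ball_subset_image (m := r / M) hr0 hr2 (by
    intro z hz
    rw [div_le_iff₀ hM0, ← hz, mul_comm]
    apply hM
    rw [mem_ball_zero_iff, hz]
    exact hr2)
  apply image_mono (ball_subset_ball hr2.le) (h1 _)
  rw [mem_ball_zero_iff, lt_div_iff₀ hM0]
  exact hr1

/-- Upper bound for the ratio of an example. -/
theorem Good.rho_le (H : Good h) (hs : RealSym h) {x0 M : ℝ} (hx0 : 0 < x0) (hx1 : x0 < 1)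
    (hk : (kap h x0).re < 0) (hM0 : 0 < M)
    (hM : ∀ z ∈ ball (0:ℂ) 1, ‖z‖ ≤ M * ‖fh h z‖) :
    rho (fh h) ≤ ‖fh h (-(x0:ℂ))‖ * M := by
  have hrad : rad (fh h) ≤ x0 := by
    apply Real.sSup_le _ hx0.le
    rintro r ⟨hr0, hr1, hconv⟩
    by_contra hcon
    push Not at hcon
    have := H.kap_nonneg_of_convex hs hr1 hx0 hcon hconv
    linarith
  have hnum : sInf ((fun w : ℂ => ‖w‖) '' frontier (fh h '' ball (0:ℂ) (rad (fh h)))) ≤
      ‖fh h (-(x0:ℂ))‖ := by
    rcases (rad_nonneg (fh h)).lt_or_eq with hpos | hzero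
    · refine le_trans ?_ (H.norm_neg_mono hpos hrad hx1)
      apply csInf_le
      · refine ⟨0, ?_⟩
        rintro _ ⟨w, -, rfl⟩
        exact norm_nonneg w
      · refine ⟨_, ?_, rfl⟩
        have hr1 : rad (fh h) < 1 := hrad.trans_lt hx1
        have hnorm : ‖-(rad (fh h) : ℂ)‖ = rad (fh h) := by
          rw [norm_neg, norm_real, Real.norm_eq_abs, abs_of_pos hpos]
        have hmem1 : -(rad (fh h) : ℂ) ∈ ball (0:ℂ) 1 := by
          rw [mem_ball_zero_iff, hnorm]; exact hr1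
        constructor
        · have hcl : -(rad (fh h) : ℂ) ∈ closure (ball (0:ℂ) (rad (fh h))) := by
            rw [closure_ball _ hpos.ne', mem_closedBall_zero_iff, hnorm]
          have hca : ContinuousWithinAt (fh h) (ball (0:ℂ) (rad (fh h))) (-(rad (fh h) : ℂ)) :=
            (H.hasDerivAt_fh hmem1).continuousAt.continuousWithinAt
          exact hca.mem_closure_image hcl
        · have hop : IsOpen (fh h '' ball 0 (rad (fh h))) :=
            H.isOpen_image isOpen_ball (ball_subset_ball hr1.le)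
          rw [hop.interior_eq]
          rintro ⟨z, hz, hzz⟩
          have := H.injOn (ball_subset_ball hr1.le hz) hmem1 hzz
          rw [this, mem_ball_zero_iff, hnorm] at hz
          exact lt_irrefl _ hz
    · rw [← hzero, ball_zero, image_empty, frontier_empty, image_empty, Real.sInf_empty]
      exact norm_nonneg _
  rw [rho_eq]
  rcases ((fh h '' ball (0:ℂ) 1)ᶜ).eq_empty_or_nonempty with he | hne
  · rw [he, infDist_empty, div_zero]
    exact mul_nonneg (norm_nonneg _) hM0.le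
  · have hden : 1 / M ≤ infDist (0:ℂ) (fh h '' ball (0:ℂ) 1)ᶜ := by
      rw [le_infDist hne]
      intro w hw
      rw [dist_zero_left]
      exact H.omitted_ge hM0 hM hw
    calc _ ≤ ‖fh h (-(x0:ℂ))‖ / (1 / M) := by
          apply div_le_div₀ (norm_nonneg _) hnum (by positivity) hden
      _ = ‖fh h (-(x0:ℂ))‖ * M := by field_simp

/-- Lower bound for the ratio. -/
theorem Good.le_rho (H : Good h) {r D : ℝ} (hr : 0 < r) (hr1 : r < 1)
    (hk : ∀ z, ‖z‖ = r → 0 ≤ (kap h z).re)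
    (hup : ∀ z ∈ ball (0:ℂ) 1, 0 < z.im → 0 ≤ (ph h z).im)
    (hdn : ∀ z ∈ ball (0:ℂ) 1, z.im < 0 → (ph h z).im ≤ 0)
    (hD : ∀ x : ℝ, 0 < x → x < 1 → ‖fh h (-(x:ℂ))‖ ≤ D) :
    ‖fh h (-(r:ℂ))‖ / D ≤ rho (fh h) := by
  have hconv := H.convex_image hr hr1 hk
  have hrad : r ≤ rad (fh h) := by
    apply le_csSup
    · exact ⟨1, fun x hx => hx.2.1⟩
    · exact ⟨hr, hr1.le, hconv⟩
  have hrad1 := rad_le_one (fh h)
  have hfpos : 0 < ‖fh h (-(r:ℂ))‖ := by
    rw [norm_pos_iff]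
    intro h0
    rw [fh_eq_zero, neg_eq_zero, ofReal_eq_zero] at h0
    exact hr.ne' h0
  have hball : ball (0:ℂ) ‖fh h (-(r:ℂ))‖ ⊆ fh h '' ball 0 r :=
    H.ball_subset_image hr hr1 (fun z hz => H.norm_ge_neg hr hr1 hup hdn hz)
  obtain ⟨w, hw, hwD⟩ := H.exists_omitted hD
  have hnum : ‖fh h (-(r:ℂ))‖ ≤
      sInf ((fun w : ℂ => ‖w‖) '' frontier (fh h '' ball (0:ℂ) (rad (fh h)))) := by
    apply le_csInf
    · apply Nonempty.image
      rw [nonempty_frontier_iff]
      constructor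
      · exact ⟨fh h 0, 0, by simpa using hr.trans_le hrad, rfl⟩
      · intro hu
        apply hw
        apply image_mono (ball_subset_ball hrad1)
        rw [hu]; exact mem_univ _
    · rintro _ ⟨v, hv, rfl⟩
      have hop : IsOpen (fh h '' ball 0 (rad (fh h))) :=
        H.isOpen_image isOpen_ball (ball_subset_ball hrad1)
      have hv2 := hv.2
      rw [hop.interior_eq] at hv2
      by_contra hcon
      push Not at hcon
      apply hv2
      apply image_mono (ball_subset_ball hrad)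
      apply hball
      rwa [mem_ball_zero_iff]
  have hden : infDist (0:ℂ) (fh h '' ball (0:ℂ) 1)ᶜ ≤ D := by
    have h1 := infDist_le_dist_of_mem (x := (0:ℂ)) (s := (fh h '' ball (0:ℂ) 1)ᶜ) hw
    rw [dist_zero_left] at h1
    exact h1.trans hwD
  have hden0 : 0 < infDist (0:ℂ) (fh h '' ball (0:ℂ) 1)ᶜ := by
    apply hfpos.trans_le
    rw [le_infDist ⟨w, hw⟩]
    intro v hv
    rw [dist_zero_left]
    by_contra hcon
    push Not at hcon
    apply hv
    apply image_mono (ball_subset_ball hr1.le)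
    apply hball
    rwa [mem_ball_zero_iff]
  rw [rho_eq]
  exact div_le_div₀ (hfpos.le.trans hnum) hnum hden0 hden

end Pool.Agent.Lib_helper46.Schild
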