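import Pool.Agent.Lib_helper46.Schild.Example

set_option autoImplicit false

open Complex Metric Set

namespace Pool.Agent.Lib_helper46.Schild

/-- the square root `R` -/
noncomputable def Rb (b : ℝ) (z : ℂ) : ℂ := (1 + 2 * (2 * (b:ℂ) ^ 2 - 1) * z + z ^ 2) ^ (1/2 : ℂ)

lemma abs_cb {b : ℝ} (hb0 : 0 ≤ b) (hb1 : b ≤ 1) : |1 - 2 * b ^ 2| ≤ 1 := by
  rw [abs_le]
  constructor <;> nlinarith

lemma qd_cb (b : ℝ) (z : ℂ) : qd (1 - 2 * b ^ 2) z = 1 + 2 * (2 * (b:ℂ) ^ 2 - 1) * z + z ^ 2 := by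
  unfold qd
  push_cast
  ring

lemma Rb_eq (b : ℝ) (z : ℂ) : Rb b z = (qd (1 - 2 * b ^ 2) z) ^ (1/2 : ℂ) := by
  rw [qd_cb]; rfl

section
variable {b : ℝ} {z : ℂ}

lemma Rb_sq : Rb b z ^ 2 = qd (1 - 2 * b ^ 2) z := by
  rw [Rb_eq]
  have := cpow_nat_inv_pow (qd (1 - 2 * b ^ 2) z) (n := 2) (by norm_num)
  have h2 : ((2:ℕ) : ℂ)⁻¹ = (1/2 : ℂ) := by norm_num
  rw [h2] at this
  exact this

lemma Rb_re_pos (hb0 : 0 ≤ b) (hb1 : b ≤ 1) (hz : z ∈ ball (0:ℂ) 1) : 0 < (Rb b z).re := by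
  have hs := qd_mem (abs_cb hb0 hb1) hz
  rw [Rb_eq, cpow_def_of_ne_zero (slitPlane_ne_zero hs), exp_re]
  apply mul_pos (Real.exp_pos _)
  apply Real.cos_pos_of_mem_Ioo
  have h1 : (log (qd (1 - 2 * b ^ 2) z) * (1/2 : ℂ)).im = arg (qd (1 - 2 * b ^ 2) z) / 2 := by
    have : (1/2 : ℂ) = ((1/2 : ℝ) : ℂ) := by push_cast; rfl
    rw [this, mul_comm, im_ofReal_mul, log_im]
    ring
  rw [h1]
  have h2 := neg_pi_lt_arg (qd (1 - 2 * b ^ 2) z)
  have h3 : arg (qd (1 - 2 * b ^ 2) z) < Real.pi := by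
    rcases (arg_le_pi (qd (1 - 2 * b ^ 2) z)).lt_or_eq with h | h
    · exact h
    · exact absurd h (mem_slitPlane_iff_arg.1 hs).1
  constructor <;> linarith

lemma Rb_ne (hb0 : 0 ≤ b) (hb1 : b ≤ 1) (hz : z ∈ ball (0:ℂ) 1) : Rb b z ≠ 0 := by
  intro h0
  have := Rb_re_pos hb0 hb1 hz
  rw [h0] at this
  simp at this

lemma Rb_hasDerivAt (hb0 : 0 ≤ b) (hb1 : b ≤ 1) (hz : z ∈ ball (0:ℂ) 1) :
    HasDerivAt (Rb b) ((z - (1 - 2 * b ^ 2 : ℝ)) / Rb b z) z := by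
  have hs := qd_mem (abs_cb hb0 hb1) hz
  have h1 := (qd_hasDerivAt (1 - 2 * b ^ 2) z).cpow_const (c := (1/2 : ℂ)) hs
  have h2 : (fun z => (qd (1 - 2 * b ^ 2) z) ^ (1/2 : ℂ)) = Rb b := by
    funext z; rw [Rb_eq]
  rw [h2] at h1
  refine h1.congr_deriv ?_
  rw [cpow_sub _ _ (slitPlane_ne_zero hs), cpow_one, ← Rb_eq, ← Rb_sq]
  have := Rb_ne hb0 hb1 hz
  field_simp

lemma one_sub_ne (hz : z ∈ ball (0:ℂ) 1) : 1 - z ≠ 0 := by
  intro h0
  have : z = 1 := by linear_combination -h0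
  rw [this] at hz
  simp at hz

/-- real algebra behind `Re p > 0` -/
lemma alg_pos {b x y u v : ℝ} (hn : x ^ 2 + y ^ 2 < 1) (hu : 0 < u)
    (hre : u * u - v * v = 1 - 2 * (1 - 2 * b ^ 2) * x + (x ^ 2 - y ^ 2))
    (huv : u * v = y * (x - (1 - 2 * b ^ 2))) : 0 < u * (1 - x) - v * y := by
  have hx : x < 1 := by nlinarith [sq_nonneg y]
  by_contra hcon
  push Not at hcon
  set g := x - (1 - 2 * b ^ 2) with hg
  set c := 1 - 2 * (1 - 2 * b ^ 2) * x + (x ^ 2 - y ^ 2) with hc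
  have h1 : u * (1 - x) ≤ v * y := by linarith
  have h2 : u ^ 2 * (1 - x) ≤ y ^ 2 * g := by
    have h3 := mul_le_mul_of_nonneg_left h1 hu.le
    calc u ^ 2 * (1 - x) = u * (u * (1 - x)) := by ring
      _ ≤ u * (v * y) := h3
      _ = (u * v) * y := by ring
      _ = y ^ 2 * g := by rw [huv]; ring
  have hx1 : 0 < 1 - x := by linarith
  have hgpos : 0 < y ^ 2 * g := lt_of_lt_of_le (mul_pos (by positivity) hx1) h2
  have hg0 : 0 < g := by
    by_contra hc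
    push Not at hc
    nlinarith [sq_nonneg y]
  set X := u ^ 2 with hX
  have hX0 : 0 < X := by positivity
  have h3 : X * (X - c) = (y * g) ^ 2 := by
    rw [← huv, ← hre, hX]; ring
  have h4 : 0 ≤ X - c := by
    by_contra hcc
    push Not at hcc
    have := mul_neg_of_pos_of_neg hX0 hcc
    rw [h3] at this
    nlinarith [sq_nonneg (y * g)]
  set Y := y ^ 2 * g / (1 - x) with hY
  have hYX : X ≤ Y := by rw [hY, le_div_iff₀ hx1]; exact h2
  have hYe : Y * (1 - x) = y ^ 2 * g := by rw [hY]; field_simp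
  have h5 : 0 ≤ (Y - X) * (Y + (X - c)) :=
    mul_nonneg (by linarith) (by linarith)
  have h6 : (Y - X) * (Y + (X - c)) = Y ^ 2 - c * Y - (y * g) ^ 2 := by
    rw [← h3]; ring
  have hY0 : 0 < Y := lt_of_lt_of_le hX0 hYX
  have hb2 : 0 < 2 * b ^ 2 := by linarith
  have h7 : (Y ^ 2 - c * Y - (y * g) ^ 2) * (1 - x) = Y * (2 * b ^ 2 * (x ^ 2 + y ^ 2 - 1)) := by
    have e1 : (Y ^ 2 - c * Y - (y * g) ^ 2) * (1 - x)
        = Y * (Y * (1 - x)) - c * Y * (1 - x) - (y ^ 2 * g) * g * (1 - x) := by ring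
    rw [e1, ← hYe]
    have e2 : Y * (Y * (1 - x)) - c * Y * (1 - x) - (Y * (1 - x)) * g * (1 - x)
        = Y * ((Y * (1 - x)) - (1 - x) * (c + g * (1 - x))) := by ring
    rw [e2, hYe, hc, hg]
    ring
  have h8 : Y * (2 * b ^ 2 * (x ^ 2 + y ^ 2 - 1)) < 0 := by
    apply mul_neg_of_pos_of_neg hY0
    apply mul_neg_of_pos_of_neg hb2
    linarith
  rw [← h7, ← h6] at h8
  have := mul_nonneg h5 hx1.le
  linarith

/-- `p = R/(1-z)` has positive real part -/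
lemma p_re_pos (hb0 : 0 ≤ b) (hb1 : b ≤ 1) (hz : z ∈ ball (0:ℂ) 1) :
    0 < (Rb b z / (1 - z)).re := by
  have hu := Rb_re_pos hb0 hb1 hz
  have hsq := Rb_sq (b := b) (z := z)
  have hn := normSq_lt_one hz
  have hre := congrArg Complex.re hsq
  have him := congrArg Complex.im hsq
  rw [qd_re, pow_two, mul_re] at hre
  rw [qd_im, pow_two, mul_im] at him
  rw [div_re, ← add_div]
  apply div_pos _ (normSq_pos.2 (one_sub_ne hz))
  simp only [sub_re, one_re, sub_im, one_im, zero_sub]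
  have := alg_pos hn hu hre (by linarith)
  linarith

lemma q_re_pos (hz : z ∈ ball (0:ℂ) 1) : 0 < ((1 + z) / (1 - z)).re := by
  have h1 := normSq_lt_one hz
  have hne := one_sub_ne hz
  rw [div_re, ← add_div]
  apply div_pos _ (normSq_pos.2 hne)
  simp only [sub_re, one_re, sub_im, one_im, add_re, add_im]
  nlinarith

/-- A continuous logarithm of a function with positive real part is the principal one. -/
lemma log_unique {L A : ℂ → ℂ} (hL : ContinuousOn L (ball 0 1)) (hL0 : L 0 = 0)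
    (hexp : ∀ z ∈ ball (0:ℂ) 1, exp (L z) = A z) (hpos : ∀ z ∈ ball (0:ℂ) 1, 0 < (A z).re) :
    ∀ z ∈ ball (0:ℂ) 1, L z = log (A z) := by
  have hcos : ∀ z ∈ ball (0:ℂ) 1, 0 < Real.cos (L z).im := by
    intro z hz
    have h1 := hpos z hz
    rw [← hexp z hz, exp_re] at h1
    exact (pos_iff_pos_of_mul_pos h1).1 (Real.exp_pos _)
  have hord : ((fun z => (L z).im) '' ball 0 1).OrdConnected := by
    apply IsPreconnected.ordConnected
    apply (convex_ball (0:ℂ) 1).isPreconnected.image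
    exact continuous_im.comp_continuousOn hL
  have h0 : (0:ℝ) ∈ ((fun z => (L z).im) '' ball 0 1) := ⟨0, by simp, by simp [hL0]⟩
  intro z hz
  have hz' : (L z).im ∈ ((fun z => (L z).im) '' ball 0 1) := ⟨z, hz, rfl⟩
  have h1 : (L z).im < Real.pi / 2 := by
    by_contra hcon
    push Not at hcon
    obtain ⟨w, hw, hw2⟩ := hord.out h0 hz' ⟨Real.pi_div_two_pos.le, hcon⟩
    have := hcos w hw
    simp only at hw2
    rw [hw2, Real.cos_pi_div_two] at this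
    exact lt_irrefl _ this
  have h2 : -(Real.pi / 2) < (L z).im := by
    by_contra hcon
    push Not at hcon
    obtain ⟨w, hw, hw2⟩ := hord.out hz' h0 ⟨hcon, by linarith [Real.pi_div_two_pos]⟩
    have := hcos w hw
    simp only at hw2
    rw [hw2, Real.cos_neg, Real.cos_pi_div_two] at this
    exact lt_irrefl _ this
  rw [← hexp z hz, log_exp (by linarith [Real.pi_pos]) (by linarith [Real.pi_pos])]

/-- the function `A` -/
noncomputable def Ab (b : ℝ) (z : ℂ) : ℂ :=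
  (Rb b z / (1 - z) + (b:ℂ) * ((1 + z) / (1 - z))) / (1 + (b:ℂ))

/-- the function `B` -/
noncomputable def Bb (b : ℝ) (z : ℂ) : ℂ := 2 / (Rb b z + 1 + z)

lemma Ab_re_pos (hb0 : 0 ≤ b) (hb1 : b ≤ 1) (hz : z ∈ ball (0:ℂ) 1) : 0 < (Ab b z).re := by
  unfold Ab
  have h1 := p_re_pos hb0 hb1 hz
  have h2 := q_re_pos hz
  have h3 : (1 + (b:ℂ)) = ((1 + b : ℝ) : ℂ) := by push_cast; rfl
  rw [h3, div_ofReal_re, add_re, re_ofReal_mul]
  positivity

lemma Bden_re_pos (hb0 : 0 ≤ b) (hb1 : b ≤ 1) (hz : z ∈ ball (0:ℂ) 1) :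
    0 < (Rb b z + 1 + z).re := by
  have h1 := Rb_re_pos hb0 hb1 hz
  have h2 := normSq_lt_one hz
  have h3 : 0 < 1 + z.re := by nlinarith [sq_nonneg z.im]
  simp only [add_re, one_re]
  linarith

lemma Bb_re_pos (hb0 : 0 ≤ b) (hb1 : b ≤ 1) (hz : z ∈ ball (0:ℂ) 1) : 0 < (Bb b z).re := by
  unfold Bb
  have h1 := Bden_re_pos hb0 hb1 hz
  have hne : Rb b z + 1 + z ≠ 0 := by
    intro h0
    rw [h0] at h1
    simp at h1
  rw [div_re]
  have h2 : (2:ℂ).re = 2 := by simp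
  have h3 : (2:ℂ).im = 0 := by simp
  rw [h2, h3, zero_mul, zero_div, add_zero]
  apply div_pos _ (normSq_pos.2 hne)
  linarith

lemma Ab_hasDerivAt (hb0 : 0 ≤ b) (hb1 : b ≤ 1) (hz : z ∈ ball (0:ℂ) 1) :
    HasDerivAt (Ab b) (2 * b / (Rb b z * (1 - z)) * Ab b z) z := by
  have hR := Rb_hasDerivAt hb0 hb1 hz
  have hRne := Rb_ne hb0 hb1 hz
  have h1z := one_sub_ne hz
  have hd : HasDerivAt (fun z : ℂ => 1 - z) (-1) z := (hasDerivAt_id z).const_sub 1
  have hs : HasDerivAt (fun z : ℂ => 1 + z) 1 z := (hasDerivAt_id z).const_add 1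
  have h1 := hR.div hd h1z
  have h2 := (hs.div hd h1z).const_mul (b:ℂ)
  have h3 := (h1.add h2).div_const (1 + (b:ℂ))
  have hb : (1 + (b:ℂ)) ≠ 0 := by
    have : (1 + (b:ℂ)) = ((1 + b : ℝ) : ℂ) := by push_cast; rfl
    rw [this]
    exact_mod_cast (by linarith : (1 + b) ≠ 0)
  refine h3.congr_deriv ?_
  unfold Ab
  have hsq := Rb_sq (b := b) (z := z)
  unfold qd at hsq
  push_cast at hsq ⊢
  field_simp
  linear_combination hsq

lemma Bb_hasDerivAt (hb0 : 0 ≤ b) (hb1 : b ≤ 1) (hz : z ∈ ball (0:ℂ) 1) :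
    HasDerivAt (Bb b) (-((z - (1 - 2 * b ^ 2 : ℝ)) / Rb b z + 1) / (Rb b z + 1 + z) * Bb b z) z := by
  have hR := Rb_hasDerivAt hb0 hb1 hz
  have hRne := Rb_ne hb0 hb1 hz
  have h1 := Bden_re_pos hb0 hb1 hz
  have hne : Rb b z + 1 + z ≠ 0 := by
    intro h0
    rw [h0] at h1
    simp at h1
  have h3 := (hasDerivAt_const z (2:ℂ)).div ((hR.add_const 1).add (hasDerivAt_id z)) hne
  refine h3.congr_deriv ?_
  unfold Bb
  have he : ((fun x : ℂ => Rb b x + 1) + (id : ℂ → ℂ)) z = Rb b z + 1 + z := rfl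
  rw [he]
  field_simp
  ring

end

/-- The exponent for Suffridge's function. -/
noncomputable def hS (b : ℝ) (L M : ℂ → ℂ) (z : ℂ) : ℂ := 2 * (b:ℂ) * L z + 2 * M z

/-- Data of the family. -/
structure SData (b : ℝ) (L M : ℂ → ℂ) : Prop where
  b0 : 0 ≤ b
  b1 : b ≤ 1
  cL : ContinuousOn L (ball 0 1)
  cM : ContinuousOn M (ball 0 1)
  L0 : L 0 = 0
  M0 : M 0 = 0
  eL : ∀ z ∈ ball (0:ℂ) 1, exp (L z) = Ab b z
  eM : ∀ z ∈ ball (0:ℂ) 1, exp (M z) = Bb b z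

namespace SData

variable {b : ℝ} {L M : ℂ → ℂ}

lemma hasDerivAt_L (S : SData b L M) {z : ℂ} (hz : z ∈ ball (0:ℂ) 1) :
    HasDerivAt L (2 * b / (Rb b z * (1 - z))) z := by
  have hpos := fun z (hz : z ∈ ball (0:ℂ) 1) => Ab_re_pos S.b0 S.b1 hz
  have h1 := log_unique S.cL S.L0 S.eL hpos
  have h2 := (Ab_hasDerivAt S.b0 S.b1 hz).clog (Or.inl (hpos z hz))
  have h3 : L =ᶠ[nhds z] fun z => log (Ab b z) := by
    filter_upwards [isOpen_ball.mem_nhds hz] with w hw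
    exact h1 w hw
  refine (h2.congr_of_eventuallyEq h3).congr_deriv ?_
  have hne : Ab b z ≠ 0 := by
    intro h0
    have := hpos z hz
    rw [h0] at this
    simp at this
  field_simp

lemma hasDerivAt_M (S : SData b L M) {z : ℂ} (hz : z ∈ ball (0:ℂ) 1) :
    HasDerivAt M (-((z - (1 - 2 * b ^ 2 : ℝ)) / Rb b z + 1) / (Rb b z + 1 + z)) z := by
  have hpos := fun z (hz : z ∈ ball (0:ℂ) 1) => Bb_re_pos S.b0 S.b1 hz
  have h1 := log_unique S.cM S.M0 S.eM hpos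
  have h2 := (Bb_hasDerivAt S.b0 S.b1 hz).clog (Or.inl (hpos z hz))
  have h3 : M =ᶠ[nhds z] fun z => log (Bb b z) := by
    filter_upwards [isOpen_ball.mem_nhds hz] with w hw
    exact h1 w hw
  refine (h2.congr_of_eventuallyEq h3).congr_deriv ?_
  have hne : Bb b z ≠ 0 := by
    intro h0
    have := hpos z hz
    rw [h0] at this
    simp at this
  rw [mul_div_assoc, div_self hne, mul_one]

lemma hasDerivAt_h (S : SData b L M) {z : ℂ} (hz : z ∈ ball (0:ℂ) 1) :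
    HasDerivAt (hS b L M) (2 * b * (2 * b / (Rb b z * (1 - z)))
      + 2 * (-((z - (1 - 2 * b ^ 2 : ℝ)) / Rb b z + 1) / (Rb b z + 1 + z))) z := by
  exact ((S.hasDerivAt_L hz).const_mul (2 * (b:ℂ))).add ((S.hasDerivAt_M hz).const_mul (2:ℂ))

lemma ph_eq (S : SData b L M) {z : ℂ} (hz : z ∈ ball (0:ℂ) 1) :
    ph (hS b L M) z = Rb b z / (1 - z) := by
  unfold ph
  rw [(S.hasDerivAt_h hz).deriv]
  have hRne := Rb_ne S.b0 S.b1 hz
  have h1z := one_sub_ne hz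
  have h1 := Bden_re_pos S.b0 S.b1 hz
  have hne : Rb b z + 1 + z ≠ 0 := by
    intro h0
    rw [h0] at h1
    simp at h1
  have hsq := Rb_sq (b := b) (z := z)
  unfold qd at hsq
  push_cast at hsq ⊢
  field_simp
  linear_combination (-(Rb b z) - 2 * z) * hsq

lemma good (S : SData b L M) : Good (hS b L M) where
  diff := fun z hz => (S.hasDerivAt_h hz).differentiableAt.differentiableWithinAt
  pos := by
    intro z hz
    rw [S.ph_eq hz]
    exact p_re_pos S.b0 S.b1 hz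

end SData

end Pool.Agent.Lib_helper46.Schild
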