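import Pool.Agent.Lib_helper46.Schild.General

set_option autoImplicit false

open Complex Metric Set

namespace Pool.Agent.Lib_helper46.Schild

variable {h : ℂ → ℂ}

/-- A preconnected set meeting `t` and its complement meets the frontier of `t`. -/
lemma meets_frontier {X : Type*} [TopologicalSpace X] {s t : Set X} (hs : IsPreconnected s)
    (h1 : (s ∩ t).Nonempty) (h2 : (s \ t).Nonempty) : (s ∩ frontier t).Nonempty := by
  by_contra hcon
  rw [not_nonempty_iff_eq_empty] at hcon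
  have hsub : s ⊆ interior t ∪ (closure t)ᶜ := by
    intro x hx
    by_cases hxc : x ∈ closure t
    · left
      by_contra hxi
      have : x ∈ s ∩ frontier t := ⟨hx, hxc, hxi⟩
      rw [hcon] at this
      exact this
    · right
      exact hxc
  have hdis : Disjoint (interior t) (closure t)ᶜ := by
    rw [Set.disjoint_left]
    intro x hx hx'
    exact hx' (subset_closure (interior_subset hx))
  have hne : (s ∩ interior t).Nonempty := by
    obtain ⟨x, hx, hxt⟩ := h1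
    rcases hsub hx with h3 | h3
    · exact ⟨x, hx, h3⟩
    · exact absurd (subset_closure hxt) h3
  have := IsPreconnected.subset_left_of_subset_union isOpen_interior isClosed_closure.isOpen_compl
    hdis hsub hne hs
  obtain ⟨x, hx, hxt⟩ := h2
  exact hxt (interior_subset (this hx))

/-- Open mapping. -/
lemma Good.isOpen_image (H : Good h) {U : Set ℂ} (hU : IsOpen U) (hsub : U ⊆ ball 0 1) :
    IsOpen (fh h '' U) := by
  rcases (H.differentiableOn_fh.analyticOnNhd isOpen_ball).is_constant_or_isOpen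
    (convex_ball 0 1).isPreconnected with hc | ho
  · obtain ⟨w, hw⟩ := hc
    have h1 : (0:ℂ) ∈ ball (0:ℂ) 1 := by simp
    have h2 : (1/2:ℂ) ∈ ball (0:ℂ) 1 := by
      rw [mem_ball_zero_iff]
      norm_num
    have := H.injOn h1 h2 ((hw 0 h1).trans (hw _ h2).symm)
    norm_num at this
  · exact ho U hsub hU

lemma closedBall_subset {r : ℝ} (hr1 : r < 1) : closedBall (0:ℂ) r ⊆ ball 0 1 :=
  closedBall_subset_ball hr1

lemma Good.isCompact_image (H : Good h) {r : ℝ} (hr1 : r < 1) :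
    IsCompact (fh h '' closedBall 0 r) :=
  (isCompact_closedBall (0:ℂ) r).image_of_continuousOn
    (H.continuousOn_fh.mono (closedBall_subset hr1))

/-- frontier of the image of the open ball lies in the image of the sphere. -/
lemma Good.frontier_ball (H : Good h) {r : ℝ} (hr1 : r < 1) :
    frontier (fh h '' ball 0 r) ⊆ fh h '' sphere 0 r := by
  intro w hw
  have ho : IsOpen (fh h '' ball 0 r) := H.isOpen_image isOpen_ball (ball_subset_ball hr1.le)
  have h1 : w ∈ closure (fh h '' ball 0 r) := hw.1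
  have h2 : w ∉ fh h '' ball 0 r := by
    have := hw.2
    rwa [ho.interior_eq] at this
  have h3 : w ∈ fh h '' closedBall 0 r := by
    have : closure (fh h '' ball 0 r) ⊆ fh h '' closedBall 0 r :=
      closure_minimal (image_mono ball_subset_closedBall) (H.isCompact_image hr1).isClosed
    exact this h1
  obtain ⟨z, hz, rfl⟩ := h3
  refine ⟨z, ?_, rfl⟩
  rw [mem_sphere_zero_iff_norm]
  rw [mem_closedBall_zero_iff] at hz
  apply le_antisymm hz
  by_contra hlt
  push Not at hlt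
  exact h2 ⟨z, by rwa [mem_ball_zero_iff], rfl⟩

/-- frontier of the image of the closed ball lies in the image of the sphere. -/
lemma Good.frontier_closedBall (H : Good h) {r : ℝ} (hr1 : r < 1) :
    frontier (fh h '' closedBall 0 r) ⊆ fh h '' sphere 0 r := by
  intro w hw
  have hc : IsClosed (fh h '' closedBall 0 r) := (H.isCompact_image hr1).isClosed
  have ho : IsOpen (fh h '' ball 0 r) := H.isOpen_image isOpen_ball (ball_subset_ball hr1.le)
  rw [hc.frontier_eq] at hw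
  obtain ⟨⟨z, hz, rfl⟩, h2⟩ := hw
  refine ⟨z, ?_, rfl⟩
  rw [mem_sphere_zero_iff_norm]
  rw [mem_closedBall_zero_iff] at hz
  apply le_antisymm hz
  by_contra hlt
  push Not at hlt
  apply h2
  have h3 : fh h '' ball 0 r ⊆ interior (fh h '' closedBall 0 r) :=
    interior_maximal (image_mono ball_subset_closedBall) ho
  exact h3 ⟨z, by rwa [mem_ball_zero_iff], rfl⟩

/-- If `|f| ≥ m` on `|z| = r` then `ball 0 m` is covered. -/
lemma Good.ball_subset_image (H : Good h) {r m : ℝ} (hr : 0 < r) (hr1 : r < 1)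
    (hm : ∀ z, ‖z‖ = r → m ≤ ‖fh h z‖) : ball 0 m ⊆ fh h '' ball 0 r := by
  intro w hw
  by_contra hcon
  have hm0 : 0 < m := by
    rw [mem_ball_zero_iff] at hw
    exact (norm_nonneg w).trans_lt hw
  have h0 : (0:ℂ) ∈ ball (0:ℂ) m ∩ fh h '' ball 0 r := by
    refine ⟨by simpa using hm0, 0, by simpa using hr, fh_zero⟩
  obtain ⟨v, hv, hvf⟩ := meets_frontier (convex_ball (0:ℂ) m).isPreconnected ⟨0, h0⟩
    ⟨w, hw, hcon⟩
  obtain ⟨z, hz, rfl⟩ := H.frontier_ball hr1 hvf
  rw [mem_sphere_zero_iff_norm] at hz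
  rw [mem_ball_zero_iff] at hv
  exact absurd (hm z hz) (not_le.2 hv)

/-- The ray property: `t f(z) ∈ f(closedBall 0 |z|)`. -/
lemma Good.smul_mem (H : Good h) {z : ℂ} (hz : z ∈ ball (0:ℂ) 1) {t : ℝ} (ht0 : 0 ≤ t)
    (ht1 : t ≤ 1) : (t:ℂ) * fh h z ∈ fh h '' closedBall 0 ‖z‖ := by
  rw [mem_ball_zero_iff] at hz
  by_cases hz0 : z = 0
  · subst hz0
    refine ⟨0, by simp, ?_⟩
    rw [fh_zero, mul_zero]
  have hr : 0 < ‖z‖ := norm_pos_iff.2 hz0
  by_contra hcon
  have ht1' : t < 1 := by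
    rcases ht1.lt_or_eq with h1 | h1
    · exact h1
    · exfalso
      apply hcon
      refine ⟨z, by simp, ?_⟩
      rw [h1]; simp
  -- the segment `[0, t f(z)]`
  have hpre : IsPreconnected ((fun s : ℝ => (s:ℂ) * fh h z) '' Icc 0 t) := by
    apply isPreconnected_Icc.image
    fun_prop
  have h0 : ((fun s : ℝ => (s:ℂ) * fh h z) '' Icc 0 t ∩ fh h '' closedBall 0 ‖z‖).Nonempty := by
    refine ⟨0, ⟨0, ⟨le_refl _, ht0⟩, by simp⟩, 0, by simp, fh_zero⟩
  have h1 : ((fun s : ℝ => (s:ℂ) * fh h z) '' Icc 0 t \ fh h '' closedBall 0 ‖z‖).Nonempty :=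
    ⟨_, ⟨t, ⟨ht0, le_refl _⟩, rfl⟩, hcon⟩
  obtain ⟨v, ⟨s, ⟨hs0, hst⟩, hsv⟩, hvf⟩ := meets_frontier hpre h0 h1
  obtain ⟨z1, hz1, hz1v⟩ := H.frontier_closedBall hz hvf
  rw [mem_sphere_zero_iff_norm] at hz1
  have hs : 0 < s := by
    rcases hs0.lt_or_eq with h2 | h2
    · exact h2
    · exfalso
      rw [← h2] at hsv
      simp only [ofReal_zero, zero_mul] at hsv
      rw [← hsv, fh_eq_zero] at hz1v
      rw [hz1v, norm_zero] at hz1
      exact hr.ne hz1
  have h5 : z1 = z := by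
    apply H.same_ray hr hz hz1 rfl hs
    rw [hz1v, ← hsv]
  rw [h5, ← hsv] at hz1v
  have h6 : fh h z ≠ 0 := fun h => hz0 (fh_eq_zero.1 h)
  have h7 : (1:ℂ) = s := by
    have : (1:ℂ) * fh h z = s * fh h z := by rw [one_mul]; exact hz1v
    exact mul_right_cancel₀ h6 this
  have h8 : (1:ℝ) = s := by exact_mod_cast h7
  linarith

lemma Good.starConvex (H : Good h) {r : ℝ} (hr1 : r ≤ 1) :
    StarConvex ℝ (0:ℂ) (fh h '' ball 0 r) := by
  rw [starConvex_zero_iff]
  rintro _ ⟨z, hz, rfl⟩ t ht0 ht1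
  obtain ⟨z1, hz1, hz2⟩ := H.smul_mem (ball_subset_ball hr1 hz) ht0 ht1
  refine ⟨z1, ?_, ?_⟩
  · rw [mem_closedBall_zero_iff] at hz1
    rw [mem_ball_zero_iff] at hz ⊢
    exact hz1.trans_lt hz
  · rw [hz2]; simp

/-- If `|f(-x)| ≤ D` for `x → 1` then some omitted value has norm at most `D`. -/
lemma Good.exists_omitted (H : Good h) {D : ℝ} (hD : ∀ x : ℝ, 0 < x → x < 1 → ‖fh h (-x)‖ ≤ D) :
    ∃ w, w ∉ fh h '' ball 0 1 ∧ ‖w‖ ≤ D := by
  obtain ⟨u, -, hu1, hu2⟩ := exists_seq_strictMono_tendsto (1:ℝ)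
  have hev : ∀ᶠ n in Filter.atTop, 0 < u n := hu2.eventually (lt_mem_nhds one_pos)
  have hfreq : ∃ᶠ n in Filter.atTop, fh h (-(u n:ℂ)) ∈ closedBall (0:ℂ) D := by
    apply Filter.Eventually.frequently
    filter_upwards [hev] with n hn
    rw [mem_closedBall_zero_iff]
    exact hD _ hn (hu1 n)
  obtain ⟨w, hw, φ, hφ, hlim⟩ := (isCompact_closedBall (0:ℂ) D).tendsto_subseq' hfreq
  refine ⟨w, ?_, by rwa [mem_closedBall_zero_iff] at hw⟩
  rintro ⟨z0, hz0, rfl⟩
  rw [mem_ball_zero_iff] at hz0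
  obtain ⟨r, hr1, hr2⟩ := exists_between hz0
  have hop : IsOpen (fh h '' ball 0 r) := H.isOpen_image isOpen_ball (ball_subset_ball hr2.le)
  have hmem : fh h z0 ∈ fh h '' ball 0 r := ⟨z0, by rwa [mem_ball_zero_iff], rfl⟩
  have e1 : ∀ᶠ n in Filter.atTop, fh h (-(u (φ n):ℂ)) ∈ fh h '' ball 0 r :=
    hlim.eventually (hop.mem_nhds hmem)
  have hu3 : Filter.Tendsto (u ∘ φ) Filter.atTop (nhds 1) := hu2.comp hφ.tendsto_atTop
  have e2 : ∀ᶠ n in Filter.atTop, r < u (φ n) := hu3.eventually (lt_mem_nhds hr2)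
  have e3 : ∀ᶠ n in Filter.atTop, 0 < u (φ n) := hu3.eventually (lt_mem_nhds one_pos)
  obtain ⟨n, hn1, hn2, hn3⟩ := (e1.and (e2.and e3)).exists
  obtain ⟨z, hz, hzn⟩ := hn1
  have hnorm : ‖-(u (φ n):ℂ)‖ = u (φ n) := by
    rw [norm_neg, norm_real, Real.norm_eq_abs, abs_of_pos hn3]
  have h1 : -(u (φ n):ℂ) ∈ ball (0:ℂ) 1 := by
    rw [mem_ball_zero_iff, hnorm]
    exact hu1 _
  have h2 := H.injOn (ball_subset_ball hr2.le hz) h1 hzn
  rw [mem_ball_zero_iff, h2, hnorm] at hz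
  linarith

end Pool.Agent.Lib_helper46.Schild
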